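import Mathlib

/-!
# A Robinson-type set of local rules with a blank symbol

Cells of a torus carry `none` (blank) or a tile.  A tile consists of two parity labels, a signal on
each of its four sides and a free bit.
-/

set_option autoImplicit false

namespace Pool.Agent.Tile31

/-- A signal on a side of a cell: `(direction, doubled, facing)`; the direction is `true` for
rightwards (on vertical sides) or upwards (on horizontal sides). -/
abbrev Sig : Type := Bool × Bool × Bool

/-- A non-blank tile. -/
structure Tile where
  /-- label: the horizontal coordinate is odd -/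
  p : Bool
  /-- label: the vertical coordinate is odd -/
  q : Bool
  /-- signal on the right side -/
  r : Sig
  /-- signal on the left side -/
  l : Sig
  /-- signal on the upper side -/
  u : Sig
  /-- signal on the lower side -/
  d : Sig
  /-- free bit -/
  bit : Bool
deriving DecidableEq

/-- Tiles as tuples. -/
def Tile.equiv : Bool × Bool × Sig × Sig × Sig × Sig × Bool ≃ Tile where
  toFun x := ⟨x.1, x.2.1, x.2.2.1, x.2.2.2.1, x.2.2.2.2.1, x.2.2.2.2.2.1, x.2.2.2.2.2.2⟩
  invFun t := (t.p, t.q, t.r, t.l, t.u, t.d, t.bit)
  left_inv _ := rfl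
  right_inv _ := rfl

instance : Fintype Tile := Fintype.ofEquiv _ Tile.equiv

/-- A cross sends four signals out; it faces right or left (`h`) and up or down (`v`). -/
def Cross (t : Tile) : Prop :=
  ∃ h v : Bool, t.r = (true, h, v) ∧ t.l = (false, !h, v) ∧ t.u = (true, v, h) ∧ t.d = (false, !v, h)

/-- A horizontal arm: a horizontal signal passes, two equal vertical signals come in. -/
def HArm (t : Tile) : Prop :=
  ∃ c e : Bool, t.r = t.l ∧ t.u = (false, c, e) ∧ t.d = (true, c, e) ∧ (c = true → t.r.1 = !e)

/-- A vertical arm: a vertical signal passes, two equal horizontal signals come in. -/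
def VArm (t : Tile) : Prop :=
  ∃ c e : Bool, t.u = t.d ∧ t.r = (false, c, e) ∧ t.l = (true, c, e) ∧ (c = true → t.u.1 = !e)

/-- The admissible tiles. -/
def Valid (t : Tile) : Prop :=
  (Cross t ∨ HArm t ∨ VArm t) ∧ (t.p = true → t.q = true → Cross t) ∧
    (t.p = true → t.q = false → HArm t) ∧ (t.p = false → t.q = true → VArm t)

/-- The rule for two horizontally adjacent cells. -/
def HOk : Option Tile → Option Tile → Prop
  | some s, some t => s.r = t.l ∧ t.p = !s.p ∧ t.q = s.q
  | some s, none => s.r.1 = true ∧ s.r.2.1 = false ∧ s.p = true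
  | none, some t => t.l.1 = false ∧ t.l.2.1 = false ∧ t.p = true
  | none, none => True

/-- The rule for two vertically adjacent cells. -/
def VOk : Option Tile → Option Tile → Prop
  | some s, some t => s.u = t.d ∧ t.q = !s.q ∧ t.p = s.p
  | some s, none => s.u.1 = true ∧ s.u.2.1 = false ∧ s.q = true
  | none, some t => t.d.1 = false ∧ t.d.2.1 = false ∧ t.q = true
  | none, none => True

/-- The rule for the shape of the blank region. -/
def QOk (a b c d : Option Tile) : Prop :=
  (b ≠ none → c ≠ none → a ≠ none ∧ d ≠ none) ∧ (a ≠ none → d ≠ none → b ≠ none ∧ c ≠ none)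

/-- The `2 × 2` window `a b` (lower row), `c d` (upper row) is good. -/
def Good (a b c d : Option Tile) : Prop :=
  (∀ t, a = some t → Valid t) ∧ HOk a b ∧ HOk c d ∧ VOk a c ∧ VOk b d ∧ QOk a b c d

/-- All windows of a configuration are good. -/
def IsGood {A : Type*} [Add A] [One A] (x : A → A → Option Tile) : Prop :=
  ∀ i j, Good (x i j) (x (i + 1) j) (x i (j + 1)) (x (i + 1) (j + 1))

end Pool.Agent.Tile31
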