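import Pool.Agent.Tile31.Sub2

/-!
# The only good configuration of a torus is the blank one
-/

set_option autoImplicit false

namespace Pool.Agent.Tile31

open Finset

/-- the non-blank cells -/
noncomputable def supp {L : ℕ} [NeZero L] (x : ZMod L → ZMod L → Option Tile) :
    Finset (ZMod L × ZMod L) :=
  Finset.univ.filter fun z => x z.1 z.2 ≠ none

/-- doubling map for odd `L` -/
theorem exists_double_odd (L : ℕ) [NeZero L] (hL : L % 2 = 1) (i0 : ZMod L) :
    ∃ φ : ZMod L → ZMod L, (∀ a, φ (a + 1) = φ a + 1 + 1) ∧ Function.Injective φ ∧ φ 0 = i0 := by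
  refine ⟨fun a => 2 * a + i0, fun a => by ring, ?_, by simp⟩
  intro a b hab
  have h1 : 2 * a = 2 * b := add_right_cancel hab
  have hc : Nat.Coprime 2 L := by
    rw [Nat.coprime_two_left]
    exact Nat.odd_iff.2 hL
  have h2 := ZMod.coe_mul_inv_eq_one 2 hc
  have h3 : (2 : ZMod L)⁻¹ * (2 * a) = (2 : ZMod L)⁻¹ * (2 * b) := by rw [h1]
  have h4 : (2 : ZMod L)⁻¹ * 2 = 1 := by
    rw [mul_comm]
    simpa using h2
  rwa [← mul_assoc, ← mul_assoc, h4, one_mul, one_mul] at h3

/-- doubling map for even `L` -/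
theorem exists_double_even (M : ℕ) [NeZero M] [NeZero (2 * M)] (i0 : ZMod (2 * M)) :
    ∃ φ : ZMod M → ZMod (2 * M),
      (∀ a, φ (a + 1) = φ a + 1 + 1) ∧ Function.Injective φ ∧ φ 0 = i0 := by
  have hM : 0 < M := Nat.pos_of_ne_zero (NeZero.ne M)
  refine ⟨fun a => ((2 * a.val : ℕ) : ZMod (2 * M)) + i0, ?_, ?_, by simp⟩
  · intro a
    have h1 : (a + 1).val = (a.val + 1) % M := by
      rw [ZMod.val_add, ZMod.val_one_eq_one_mod, Nat.add_mod_mod]
    have h2 : ((2 * ((a.val + 1) % M) : ℕ) : ZMod (2 * M)) = ((2 * (a.val + 1) : ℕ) : ZMod (2 * M)) := by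
      rw [← Nat.mul_mod_mul_left, ZMod.natCast_mod]
    simp only
    rw [h1, h2]
    push_cast
    ring
  · intro a b hab
    have h1 : ((2 * a.val : ℕ) : ZMod (2 * M)) = ((2 * b.val : ℕ) : ZMod (2 * M)) :=
      add_right_cancel hab
    rw [ZMod.natCast_eq_natCast_iff'] at h1
    have ha := ZMod.val_lt a
    have hb := ZMod.val_lt b
    rw [Nat.mod_eq_of_lt (by omega), Nat.mod_eq_of_lt (by omega)] at h1
    exact ZMod.val_injective M (by omega)

theorem supp_sub_lt {L L' : ℕ} [NeZero L] [NeZero L'] {x : ZMod L → ZMod L → Option Tile}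
    (hx : IsGood x) {φ ψ : ZMod L' → ZMod L} (hφ : Function.Injective φ)
    (hψ : Function.Injective ψ) {t : Tile} (ht : Ev x (φ 0) (ψ 0) t) :
    (supp (sub x φ ψ)).card < (supp x).card := by
  classical
  have h1 : (supp (sub x φ ψ)).card = ((supp (sub x φ ψ)).image (Prod.map φ ψ)).card :=
    (Finset.card_image_of_injective _ (hφ.prodMap hψ)).symm
  rw [h1]
  apply Finset.card_lt_card
  rw [Finset.ssubset_iff_of_subset]
  · obtain ⟨s, hs, -, sp, -⟩ := hx.right ht.1 ht.2.1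
    refine ⟨(φ 0 + 1, ψ 0), ?_, ?_⟩
    · simp only [supp, Finset.mem_filter, Finset.mem_univ, true_and]
      rw [hs]
      simp
    · intro hc
      rw [Finset.mem_image] at hc
      obtain ⟨⟨a, b⟩, hab, he⟩ := hc
      simp only [supp, Finset.mem_filter, Finset.mem_univ, true_and] at hab
      obtain ⟨s', hs'⟩ := Option.ne_none_iff_exists'.1 hab
      obtain ⟨t', -, ht', -⟩ := ev_of_sub hs'
      simp only [Prod.map_apply, Prod.mk.injEq] at he
      rw [he.1, he.2] at ht'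
      have := Option.some.inj (hs.symm.trans ht'.1)
      rw [this, ht'.2.1] at sp
      exact absurd sp (by simp)
  · intro z hz
    rw [Finset.mem_image] at hz
    obtain ⟨⟨a, b⟩, hab, rfl⟩ := hz
    simp only [supp, Finset.mem_filter, Finset.mem_univ, true_and] at hab ⊢
    obtain ⟨s', hs'⟩ := Option.ne_none_iff_exists'.1 hab
    obtain ⟨t', -, ht', -⟩ := ev_of_sub hs'
    simp only [Prod.map_apply]
    rw [ht'.1]
    simp

theorem good_blank_aux (n : ℕ) : ∀ (L : ℕ) [NeZero L] (x : ZMod L → ZMod L → Option Tile),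
    IsGood x → (supp x).card = n → ∀ i j, x i j = none := by
  induction n using Nat.strong_induction_on with
  | _ n ih =>
    intro L _ x hx hn i j
    by_contra hne
    obtain ⟨t0, ht0⟩ := Option.ne_none_iff_exists'.1 hne
    obtain ⟨i0, j0, t, ht⟩ := hx.exists_ev ht0
    rcases Nat.mod_two_eq_zero_or_one L with hL | hL
    · obtain ⟨M, rfl⟩ : ∃ M, L = 2 * M := ⟨L / 2, by omega⟩
      have : NeZero M := ⟨by rintro rfl; exact (NeZero.ne (2 * 0)) rfl⟩
      obtain ⟨φ, f1, f2, f3⟩ := exists_double_even M i0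
      obtain ⟨ψ, g1, g2, g3⟩ := exists_double_even M j0
      have ht' : Ev x (φ 0) (ψ 0) t := by rw [f3, g3]; exact ht
      have h1 := supp_sub_lt hx f2 g2 ht'
      rw [hn] at h1
      have h2 := ih _ h1 M (sub x φ ψ) (hx.sub_good f1 g1) rfl 0 0
      obtain ⟨c, hc, -⟩ := (hx.right ht'.1 ht'.2.1)
      obtain ⟨k, hk⟩ : ∃ i, φ 0 = i + 1 := ⟨φ 0 - 1, by simp⟩
      obtain ⟨l, hl⟩ : ∃ j, ψ 0 = j + 1 := ⟨ψ 0 - 1, by simp⟩
      have ht'' : Ev x (k + 1) (l + 1) t := by rw [← hk, ← hl]; exact ht'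
      obtain ⟨_, _, _, _, _, _, _, _, _, _, hs, _⟩ :=
        hx.sub_center (φ := φ) (ψ := ψ) hk hl ht''
      rw [hs] at h2
      exact absurd h2 (by simp)
    · obtain ⟨φ, f1, f2, f3⟩ := exists_double_odd L hL i0
      obtain ⟨ψ, g1, g2, g3⟩ := exists_double_odd L hL j0
      have ht' : Ev x (φ 0) (ψ 0) t := by rw [f3, g3]; exact ht
      have h1 := supp_sub_lt hx f2 g2 ht'
      rw [hn] at h1
      have h2 := ih _ h1 L (sub x φ ψ) (hx.sub_good f1 g1) rfl 0 0
      obtain ⟨k, hk⟩ : ∃ i, φ 0 = i + 1 := ⟨φ 0 - 1, by simp⟩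
      obtain ⟨l, hl⟩ : ∃ j, ψ 0 = j + 1 := ⟨ψ 0 - 1, by simp⟩
      have ht'' : Ev x (k + 1) (l + 1) t := by rw [← hk, ← hl]; exact ht'
      obtain ⟨_, _, _, _, _, _, _, _, _, _, hs, _⟩ :=
        hx.sub_center (φ := φ) (ψ := ψ) hk hl ht''
      rw [hs] at h2
      exact absurd h2 (by simp)

/-- On every torus the blank configuration is the only good one. -/
theorem good_blank {L : ℕ} [NeZero L] {x : ZMod L → ZMod L → Option Tile} (hx : IsGood x)
    (i j : ZMod L) : x i j = none :=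
  good_blank_aux _ L x hx rfl i j

end Pool.Agent.Tile31
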