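import Mathlib

/-!
# Translation-invariant Hamiltonians and PEPS on the torus
-/

set_option autoImplicit false

open scoped Matrix

namespace Pool.Agent.Tile31

/-- The sites of the torus `(ℤ/L)²`. -/
abbrev Site (L : ℕ) : Type := ZMod L × ZMod L

/-- The configurations of the torus; they label the product basis of `(ℂ^S)^{⊗ Λ_L}`, where the
local space has the orthonormal basis `S`. -/
abbrev Conf (L : ℕ) (S : Type) : Type := Site L → S

/-- The points of the box `{0, …, r-1}²`. -/
abbrev Box (r : ℕ) : Type := Fin r × Fin r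

/-- The site of the torus at which the point `a` of the box sits in the translate by `τ`. -/
def boxPos (L : ℕ) {r : ℕ} (τ : Site L) (a : Box r) : Site L :=
  (τ.1 + ((a.1 : ℕ) : ZMod L), τ.2 + ((a.2 : ℕ) : ZMod L))

open scoped Classical in
/-- The translate by `τ` of the operator `h` on the box: its matrix elements vanish unless the two
configurations agree outside the translated box. -/
noncomputable def term {L r : ℕ} {S : Type} (h : Matrix (Box r → S) (Box r → S) ℂ) (τ : Site L) :
    Matrix (Conf L S) (Conf L S) ℂ := fun σ σ' =>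
  if ∀ x, (∀ a : Box r, x ≠ boxPos L τ a) → σ x = σ' x then
    h (fun a => σ (boxPos L τ a)) (fun a => σ' (boxPos L τ a)) else 0

/-- The Hamiltonian `H_L`, the sum of the `L²` translates of `h`. -/
noncomputable def ham (L : ℕ) [NeZero L] {r : ℕ} {S : Type}
    (h : Matrix (Box r → S) (Box r → S) ℂ) : Matrix (Conf L S) (Conf L S) ℂ :=
  ∑ τ : Site L, term h τ

/-- The inner product of two vectors. -/
noncomputable def ip {n : Type} [Fintype n] (φ ψ : n → ℂ) : ℂ := ∑ i, starRingEnd ℂ (φ i) * ψ i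

/-- The squared norm of a vector. -/
noncomputable def nsq {n : Type} [Fintype n] (φ : n → ℂ) : ℝ := ∑ i, ‖φ i‖ ^ 2

/-- `E` is the lowest eigenvalue of `H`, it is simple with unit eigenvector `Ψ`, and the rest of the
spectrum is at distance at least `Δ`. -/
def GapAbove {n : Type} [Fintype n] (H : Matrix n n ℂ) (E Δ : ℝ) (Ψ : n → ℂ) : Prop :=
  nsq Ψ = 1 ∧ H *ᵥ Ψ = (E : ℂ) • Ψ ∧
    ∀ φ : n → ℂ, ip Ψ φ = 0 → (E + Δ) * nsq φ ≤ (ip φ (H *ᵥ φ)).re

/-- `H` has at least `N` orthonormal eigenvectors with eigenvalues at most `M`. -/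
def ManyBelow {n : Type} [Fintype n] (H : Matrix n n ℂ) (M : ℝ) (N : ℝ) : Prop :=
  ∃ (k : ℕ) (v : Fin k → n → ℂ) (μ : Fin k → ℝ), N ≤ k ∧
    (∀ i j, ip (v i) (v j) = if i = j then 1 else 0) ∧
    ∀ i, H *ᵥ v i = (μ i : ℂ) • v i ∧ μ i ≤ M

open scoped Classical in
/-- The product vector `⊗_x |b⟩`. -/
noncomputable def prodVec {S : Type} (b : S) (L : ℕ) : Conf L S → ℂ := fun σ =>
  if σ = fun _ => b then 1 else 0

/-- The vector of the PEPS with tensors `A v`, of bond dimension `D`: `a` and `b` run over the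
labels of the horizontal and of the vertical edges (the edge starting at `v`), and the four virtual
indices of `A v` are the labels of the left, right, lower and upper edge at `v`. -/
noncomputable def peps {L : ℕ} [NeZero L] {S : Type} {D : ℕ}
    (A : Site L → S → Fin D → Fin D → Fin D → Fin D → ℂ) : Conf L S → ℂ := fun σ =>
  ∑ a : Site L → Fin D, ∑ b : Site L → Fin D,
    ∏ v : Site L, A v (σ v) (a (v.1 - 1, v.2)) (a v) (b (v.1, v.2 - 1)) (b v)

/-- `Ψ` is within distance `ε` of a PEPS of bond dimension `D`. -/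
def PepsApprox {L : ℕ} [NeZero L] {S : Type} [Fintype S] [DecidableEq S] (Ψ : Conf L S → ℂ)
    (D : ℕ) (ε : ℝ) : Prop :=
  ∃ A : Site L → S → Fin D → Fin D → Fin D → Fin D → ℂ, nsq (fun σ => peps A σ - Ψ σ) ≤ ε ^ 2

/-- The Hermitian interaction `h` on the box of side `r` (local dimension at least two) defines a
family which is gapped with gap at least `Δ > 0` and unique ground states `Ψ L` of energies
`E L`. -/
def GappedFamily {r : ℕ} {S : Type} [Fintype S] [DecidableEq S]
    (h : Matrix (Box r → S) (Box r → S) ℂ) (E : ℕ → ℝ) (Δ : ℝ)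
    (Ψ : ∀ L : ℕ, Conf L S → ℂ) : Prop :=
  2 ≤ Fintype.card S ∧ h.IsHermitian ∧ 0 < Δ ∧
    ∀ (L : ℕ) [NeZero L], GapAbove (ham L h) (E L) Δ (Ψ L)

/-- On every torus of side `L ≥ 2` the Hamiltonian of the family has at least `2^(L²/16)`
orthonormal eigenvectors with eigenvalues at most `E L + 4 Δ`. -/
def ManyLowStates {r : ℕ} {S : Type} [Fintype S] [DecidableEq S]
    (h : Matrix (Box r → S) (Box r → S) ℂ) (E : ℕ → ℝ) (Δ : ℝ) : Prop :=
  ∀ (L : ℕ) [NeZero L], 2 ≤ L → ManyBelow (ham L h) (E L + 4 * Δ) ((2 : ℝ) ^ ((L : ℝ) ^ 2 / 16))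

/-- The conclusion of Q1 for the ground states `Ψ L`: for every `c > 0` there are `k` and `C` such
that for all large `L` some PEPS of bond dimension at most `exp (C (log L)^k)` is within distance
`L^{-c}` of `Ψ L`. -/
def PepsConclusion {S : Type} [Fintype S] [DecidableEq S] (Ψ : ∀ L : ℕ, Conf L S → ℂ) : Prop :=
  ∀ c : ℝ, 0 < c → ∃ k C : ℝ, ∃ L₀ : ℕ, ∀ (L : ℕ) [NeZero L], L₀ ≤ L →
    ∃ D : ℕ, (D : ℝ) ≤ Real.exp (C * Real.log L ^ k) ∧ PepsApprox (Ψ L) D ((L : ℝ) ^ (-c))

end Pool.Agent.Tile31
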