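import Pool.Agent.Tile31.Product

/-!
# Gap, low eigenvectors and PEPS for the stacked family
-/

set_option autoImplicit false
set_option linter.unusedSectionVars false

open scoped Matrix

namespace Pool.Agent.Tile31

section linalg

variable {n : Type} [Fintype n]

theorem ip_eq (φ ψ : n → ℂ) : ip φ ψ = star φ ⬝ᵥ ψ := rfl

theorem ip_add_right (φ ψ χ : n → ℂ) : ip φ (ψ + χ) = ip φ ψ + ip φ χ := by
  rw [ip_eq, ip_eq, ip_eq, dotProduct_add]

theorem ip_add_left (φ ψ χ : n → ℂ) : ip (φ + ψ) χ = ip φ χ + ip ψ χ := by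
  rw [ip_eq, ip_eq, ip_eq, star_add, add_dotProduct]

theorem ip_smul_right (c : ℂ) (φ ψ : n → ℂ) : ip φ (c • ψ) = c * ip φ ψ := by
  rw [ip_eq, ip_eq, dotProduct_smul, smul_eq_mul]

theorem ip_smul_left (c : ℂ) (φ ψ : n → ℂ) : ip (c • φ) ψ = starRingEnd ℂ c * ip φ ψ := by
  rw [ip_eq, ip_eq, star_smul, smul_dotProduct, smul_eq_mul]
  rfl

theorem ip_self (φ : n → ℂ) : ip φ φ = (nsq φ : ℂ) := by
  unfold ip nsq
  push_cast
  refine Finset.sum_congr rfl fun i _ => ?_
  rw [← Complex.normSq_eq_conj_mul_self, Complex.normSq_eq_norm_sq]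
  push_cast
  rfl

theorem ip_conj (φ ψ : n → ℂ) : starRingEnd ℂ (ip φ ψ) = ip ψ φ := by
  unfold ip
  rw [map_sum]
  refine Finset.sum_congr rfl fun i _ => ?_
  rw [map_mul, Complex.conj_conj, mul_comm]

theorem ip_mulVec {H : Matrix n n ℂ} (hH : H.IsHermitian) (φ ψ : n → ℂ) :
    ip φ (H *ᵥ ψ) = ip (H *ᵥ φ) ψ := by
  rw [ip_eq, ip_eq, Matrix.dotProduct_mulVec, Matrix.star_mulVec, hH.eq]

theorem nsq_nonneg (φ : n → ℂ) : 0 ≤ nsq φ := Finset.sum_nonneg fun _ _ => by positivity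

theorem GapAbove.lower {H : Matrix n n ℂ} (hH : H.IsHermitian) {E Δ : ℝ} {Ψ : n → ℂ}
    (h : GapAbove H E Δ Ψ) (hΔ : 0 ≤ Δ) (φ : n → ℂ) :
    E * nsq φ ≤ (ip φ (H *ᵥ φ)).re := by
  obtain ⟨h1, h2, h3⟩ := h
  obtain ⟨c, hc⟩ : ∃ c, c = ip Ψ φ := ⟨_, rfl⟩
  obtain ⟨φ', hφ'⟩ : ∃ φ', φ' = φ + (-c) • Ψ := ⟨_, rfl⟩
  have hΨ : ip Ψ Ψ = 1 := by rw [ip_self, h1]; simp
  have e0 : ip Ψ φ' = 0 := by
    rw [hφ', ip_add_right, ip_smul_right, hΨ, ← hc]; ring
  have e1 : ip φ' Ψ = 0 := by rw [← ip_conj, e0, map_zero]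
  have e2 : φ = φ' + c • Ψ := by
    rw [hφ']
    funext i
    simp
  have e3 : H *ᵥ φ = H *ᵥ φ' + (c * E) • Ψ := by
    conv_lhs => rw [e2]
    rw [Matrix.mulVec_add, Matrix.mulVec_smul, h2, smul_smul]
  have e4 : ip Ψ (H *ᵥ φ') = 0 := by
    rw [ip_mulVec hH, h2, ip_smul_left, e0, mul_zero]
  have e5 : ip φ (H *ᵥ φ) = ip φ' (H *ᵥ φ') + starRingEnd ℂ c * (c * E) := by
    rw [e3]
    conv_lhs => rw [e2]
    rw [ip_add_left, ip_add_right, ip_add_right, ip_smul_right, e1, ip_smul_left, ip_smul_left, e4,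
      ip_smul_right, hΨ]
    ring
  have e6 : (nsq φ : ℂ) = (nsq φ' : ℂ) + starRingEnd ℂ c * c := by
    rw [← ip_self, ← ip_self]
    conv_lhs => rw [e2]
    rw [ip_add_left, ip_add_right, ip_add_right, ip_smul_right, e1, ip_smul_left, ip_smul_left, e0,
      ip_smul_right, hΨ]
    ring
  have e7 : starRingEnd ℂ c * c = ((Complex.normSq c : ℝ) : ℂ) :=
    (Complex.normSq_eq_conj_mul_self).symm
  have e8 : nsq φ = nsq φ' + Complex.normSq c := by
    rw [e7] at e6
    exact_mod_cast e6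
  have e9 : (ip φ (H *ᵥ φ)).re = (ip φ' (H *ᵥ φ')).re + Complex.normSq c * E := by
    rw [e5, ← mul_assoc, e7, Complex.add_re]
    congr 1
    rw [← Complex.ofReal_mul, Complex.ofReal_re]
  have e10 := h3 φ' e0
  have e11 := nsq_nonneg φ'
  rw [e8, e9]
  nlinarith [mul_nonneg hΔ e11]

end linalg

variable {r : ℕ} {S : Type} [Fintype S] [DecidableEq S]

/-- the blank layer -/
def blankC (L : ℕ) : Conf L (Option Tile) := fun _ => none

open scoped Classical in
/-- the stacked ground state: `Ψ` in the first layer, all blank in the second layer -/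
noncomputable def stackPsi {L : ℕ} (Ψ : Conf L S → ℂ) : Conf L (S × Option Tile) → ℂ := fun σ =>
  if (fun x => (σ x).2) = blankC L then Ψ fun x => (σ x).1 else 0

open scoped Classical in
theorem stackPsi_pair {L : ℕ} (Ψ : Conf L S → ℂ) (σ : Conf L S) (ρ : Conf L (Option Tile)) :
    stackPsi Ψ (pair σ ρ) = if ρ = blankC L then Ψ σ else 0 := rfl

theorem energy_blankC {L : ℕ} [NeZero L] (ρ : Conf L (Option Tile)) :
    (energy fun i j => ρ (i, j)) = 0 ↔ ρ = blankC L := by
  rw [energy_eq_zero]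
  constructor
  · intro h
    funext z
    exact congrFun (congrFun h z.1) z.2
  · rintro rfl
    rfl

theorem mulVec_section {L : ℕ} [NeZero L] (H : Matrix (Conf L S) (Conf L S) ℂ) :
    (H *ᵥ fun _ => (0 : ℂ)) = fun _ => 0 := by
  funext σ
  simp [Matrix.mulVec, dotProduct]

theorem ip_zero_right {n : Type} [Fintype n] (φ : n → ℂ) : ip φ (fun _ => 0) = 0 := by
  simp [ip]

theorem ip_zero_left {n : Type} [Fintype n] (φ : n → ℂ) : ip (fun _ => 0) φ = 0 := by
  simp [ip]

theorem gap_stack {L : ℕ} [NeZero L] {h : Matrix (Box (r + 2) → S) (Box (r + 2) → S) ℂ}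
    (hh : h.IsHermitian) {E Δ : ℝ} (hΔ : 0 < Δ) {Ψ : Conf L S → ℂ}
    (hg : GapAbove (ham L h) E Δ Ψ) :
    GapAbove (ham L (stackH h Δ)) E Δ (stackPsi Ψ) := by
  classical
  obtain ⟨h1, h2, h3⟩ := id hg
  refine ⟨?_, ?_, ?_⟩
  · rw [nsq_pair, Finset.sum_eq_single (blankC L)]
    · simp only [stackPsi_pair]
      simpa using h1
    · intro ρ _ hρ
      simp_rw [stackPsi_pair, if_neg hρ]
      simp [nsq]
    · simp
  · funext x
    obtain ⟨σ, ρ, rfl⟩ : ∃ σ ρ, x = pair σ ρ := ⟨fun z => (x z).1, fun z => (x z).2, rfl⟩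
    rw [ham_stack_mulVec]
    by_cases hρ : ρ = blankC L
    · have hE := (energy_blankC ρ).2 hρ
      simp_rw [Pi.smul_apply, stackPsi_pair, if_pos hρ, hE]
      have := congrFun h2 σ
      rw [Pi.smul_apply] at this
      rw [← this]
      simp
    · simp_rw [Pi.smul_apply, stackPsi_pair, if_neg hρ]
      rw [mulVec_section]
      simp
  · intro φ hφ
    have e1 : ip Ψ (fun σ => φ (pair σ (blankC L))) = 0 := by
      rw [ip_pair, Finset.sum_eq_single (blankC L)] at hφ
      · simp only [stackPsi_pair] at hφ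
        simpa using hφ
      · intro ρ _ hρ
        simp_rw [stackPsi_pair, if_neg hρ]
        exact ip_zero_left _
      · simp
    rw [nsq_pair, ip_pair, Complex.re_sum, Finset.mul_sum]
    refine Finset.sum_le_sum fun ρ _ => ?_
    have e2 : (fun σ => (ham L (stackH h Δ) *ᵥ φ) (pair σ ρ)) =
        (ham L h *ᵥ fun σ' => φ (pair σ' ρ)) +
          ((Δ * energy fun i j => ρ (i, j) : ℝ) : ℂ) • fun σ => φ (pair σ ρ) := by
      funext σ
      rw [ham_stack_mulVec]
      rfl
    rw [e2, ip_add_right, ip_smul_right, ip_self, Complex.add_re, ← Complex.ofReal_mul,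
      Complex.ofReal_re]
    by_cases hρ : ρ = blankC L
    · have hE := (energy_blankC ρ).2 hρ
      rw [hE, hρ]
      have := h3 _ e1
      simpa using this
    · have hE : (1 : ℝ) ≤ ((energy fun i j => ρ (i, j) : ℕ) : ℝ) := by
        have : (energy fun i j => ρ (i, j)) ≠ 0 := fun hc => hρ ((energy_blankC ρ).1 hc)
        exact_mod_cast Nat.one_le_iff_ne_zero.2 this
      have e3 := hg.lower (isHermitian_ham hh) hΔ.le fun σ' => φ (pair σ' ρ)
      have e4 := nsq_nonneg fun σ' => φ (pair σ' ρ)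
      have e5 : Δ * nsq (fun σ' => φ (pair σ' ρ)) ≤
          Δ * ((energy fun i j => ρ (i, j) : ℕ) : ℝ) * nsq (fun σ' => φ (pair σ' ρ)) := by
        apply mul_le_mul_of_nonneg_right _ e4
        nlinarith
      linarith

/-- The count of low states, real form. -/
theorem pow_bound {L : ℕ} (hL : 2 ≤ L) : ∃ n : ℕ, 1 ≤ n ∧ 2 ^ n ≤ L ∧
    (2 : ℝ) ^ ((L : ℝ) ^ 2 / 16) ≤
      (Fintype.card (Fin (2 ^ n - 1) → Fin (2 ^ n - 1) → Bool) : ℝ) := by
  set n := Nat.log 2 L with hn
  have h1 : 2 ^ n ≤ L := Nat.pow_log_le_self 2 (by omega)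
  have h2 : L < 2 ^ (n + 1) := Nat.lt_pow_succ_log_self (by norm_num) L
  have h3 : 1 ≤ n := by
    by_contra h
    have : n = 0 := by omega
    rw [this] at h2
    omega
  refine ⟨n, h3, h1, ?_⟩
  have h5 : (L : ℝ) ^ 2 / 16 ≤ (((2 ^ n - 1) ^ 2 : ℕ) : ℝ) := by
    have h6 : L ≤ 4 * (2 ^ n - 1) := by
      have : 2 ≤ 2 ^ n := by
        calc 2 = 2 ^ 1 := rfl
          _ ≤ 2 ^ n := Nat.pow_le_pow_right (by norm_num) h3
      rw [pow_succ] at h2
      omega
    have h7 : (L : ℝ) ≤ 4 * ((2 ^ n - 1 : ℕ) : ℝ) := by exact_mod_cast h6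
    rw [Nat.cast_pow]
    have h8 : (0 : ℝ) ≤ L := Nat.cast_nonneg L
    have h9 : (L : ℝ) ^ 2 ≤ (4 * ((2 ^ n - 1 : ℕ) : ℝ)) ^ 2 := pow_le_pow_left₀ h8 h7 2
    nlinarith
  have h6 : Fintype.card (Fin (2 ^ n - 1) → Fin (2 ^ n - 1) → Bool) = 2 ^ ((2 ^ n - 1) ^ 2) := by
    simp only [Fintype.card_pi, Fintype.card_bool, Finset.prod_const, Finset.card_univ,
      Fintype.card_fin]
    rw [← pow_mul, sq]
  calc (2 : ℝ) ^ ((L : ℝ) ^ 2 / 16) ≤ (2 : ℝ) ^ ((((2 ^ n - 1) ^ 2 : ℕ) : ℝ)) :=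
        Real.rpow_le_rpow_of_exponent_le (by norm_num) h5
    _ = ((2 ^ ((2 ^ n - 1) ^ 2) : ℕ) : ℝ) := by
        rw [Real.rpow_natCast]; push_cast; rfl
    _ = _ := by rw [h6]

theorem many_stack {L : ℕ} [NeZero L] (hL : 2 ≤ L)
    {h : Matrix (Box (r + 2) → S) (Box (r + 2) → S) ℂ}
    {E Δ : ℝ} (hΔ : 0 < Δ) {Ψ : Conf L S → ℂ} (hg : GapAbove (ham L h) E Δ Ψ) :
    ManyBelow (ham L (stackH h Δ)) (E + 4 * Δ) ((2 : ℝ) ^ ((L : ℝ) ^ 2 / 16)) := by
  classical
  obtain ⟨n, hn, hnL, hcard⟩ := pow_bound hL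
  obtain ⟨f, hf, hE⟩ := card_le_four (L := L) hn hnL
  obtain ⟨h1, h2, h3⟩ := id hg
  let g : Fin (Fintype.card (Fin (2 ^ n - 1) → Fin (2 ^ n - 1) → Bool)) → Conf L (Option Tile) :=
    fun k z => f ((Fintype.equivFin _).symm k) z.1 z.2
  have hginj : Function.Injective g := by
    intro k k' hk
    apply (Fintype.equivFin _).symm.injective
    apply hf
    funext i j
    exact congrFun hk (i, j)
  refine ⟨_, fun k x => if (fun z => (x z).2) = g k then Ψ (fun z => (x z).1) else 0,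
    fun k => E + Δ * energy fun i j => g k (i, j), hcard, ?_, ?_⟩
  · intro k k'
    rw [ip_pair]
    have e : ∀ k, ∀ ρ : Conf L (Option Tile), (fun σ : Conf L S =>
        (if (fun z => (pair σ ρ z).2) = g k then Ψ (fun z => (pair σ ρ z).1) else 0)) =
        if ρ = g k then Ψ else fun _ => 0 := by
      intro k ρ
      funext σ
      by_cases hρ : ρ = g k
      · rw [if_pos hρ]
        have : (fun z => (pair σ ρ z).2) = g k := hρ
        rw [if_pos this]
        rfl
      · rw [if_neg hρ]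
        have : ¬ (fun z => (pair σ ρ z).2) = g k := hρ
        rw [if_neg this]
    simp_rw [e]
    rw [Finset.sum_eq_single (g k)]
    · rw [if_pos rfl]
      by_cases hk : k = k'
      · subst hk
        rw [if_pos rfl, if_pos rfl, ip_self, h1]
        simp
      · rw [if_neg hk, if_neg (fun hc => hk (hginj hc))]
        exact ip_zero_right _
    · intro ρ _ hρ
      rw [if_neg hρ]
      exact ip_zero_left _
    · simp
  · intro k
    refine ⟨?_, ?_⟩
    · funext x
      obtain ⟨σ, ρ, rfl⟩ : ∃ σ ρ, x = pair σ ρ := ⟨fun z => (x z).1, fun z => (x z).2, rfl⟩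
      rw [ham_stack_mulVec]
      by_cases hρ : ρ = g k
      · have e : ∀ σ : Conf L S, (if (fun z => (pair σ ρ z).2) = g k then
            Ψ (fun z => (pair σ ρ z).1) else 0) = Ψ σ := by
          intro σ
          have : (fun z => (pair σ ρ z).2) = g k := hρ
          rw [if_pos this]
          rfl
        simp_rw [Pi.smul_apply, e]
        have := congrFun h2 σ
        rw [Pi.smul_apply] at this
        rw [this, hρ]
        simp only [smul_eq_mul]
        push_cast
        ring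
      · have e : ∀ σ : Conf L S, (if (fun z => (pair σ ρ z).2) = g k then
            Ψ (fun z => (pair σ ρ z).1) else 0) = 0 := by
          intro σ
          have : ¬ (fun z => (pair σ ρ z).2) = g k := hρ
          rw [if_neg this]
        simp_rw [Pi.smul_apply, e]
        rw [mulVec_section]
        simp
    · have : ((energy fun i j => g k (i, j) : ℕ) : ℝ) ≤ 4 := by
        exact_mod_cast hE ((Fintype.equivFin _).symm k)
      nlinarith

/-- The PEPS approximations of `Ψ` and of the stacked vector correspond. -/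
theorem peps_stack {L : ℕ} [NeZero L] (Ψ : Conf L S → ℂ) (D : ℕ) (ε : ℝ) :
    PepsApprox (stackPsi Ψ) D ε ↔ PepsApprox Ψ D ε := by
  classical
  constructor
  · rintro ⟨A, hA⟩
    refine ⟨fun v s => A v (s, none), le_trans ?_ hA⟩
    rw [nsq_pair]
    have h1 : nsq (fun σ => peps (fun v s => A v (s, none)) σ - Ψ σ) =
        nsq fun σ => peps A (pair σ (blankC L)) - stackPsi Ψ (pair σ (blankC L)) := by
      congr 1
      funext σ
      rw [stackPsi_pair, if_pos rfl]
      rfl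
    rw [h1]
    exact Finset.single_le_sum
      (f := fun ρ => nsq fun σ => peps A (pair σ ρ) - stackPsi Ψ (pair σ ρ))
      (fun ρ _ => nsq_nonneg _) (Finset.mem_univ (blankC L))
  · rintro ⟨A, hA⟩
    refine ⟨fun v s a a' b b' => if s.2 = none then A v s.1 a a' b b' else 0, ?_⟩
    rw [nsq_pair, Finset.sum_eq_single (blankC L)]
    · refine le_trans (le_of_eq ?_) hA
      congr 1
      funext σ
      rw [stackPsi_pair, if_pos rfl]
      congr 1
    · intro ρ _ hρ
      have hex : ∃ z, ρ z ≠ none := by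
        by_contra hc
        push Not at hc
        exact hρ (funext hc)
      obtain ⟨z, hz⟩ := hex
      have e : ∀ σ : Conf L S, peps (fun v (s : S × Option Tile) a a' b b' =>
          if s.2 = none then A v s.1 a a' b b' else 0) (pair σ ρ) = 0 := by
        intro σ
        unfold peps
        refine Finset.sum_eq_zero fun a _ => Finset.sum_eq_zero fun b _ => ?_
        apply Finset.prod_eq_zero (Finset.mem_univ z)
        exact if_neg hz
      simp_rw [e, stackPsi_pair, if_neg hρ]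
      simp [nsq]
    · simp

end Pool.Agent.Tile31
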