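import Pool.Agent.Tile31.Sub

/-!
# The explicit hierarchical pattern
-/

set_option autoImplicit false

namespace Pool.Agent.Tile31

/-- the exponent of two -/
def v2 (j : ℕ) : ℕ := padicValNat 2 j

/-- The signal on the edge between `(i, j)` and `(i + 1, j)`. -/
def eH (i j : ℕ) : Sig :=
  (decide ((i / 2 ^ v2 j) % 2 = 1), decide ((i / 2 ^ v2 j) % 4 = 1 ∨ (i / 2 ^ v2 j) % 4 = 2),
    decide ((j / 2 ^ v2 j) % 4 = 1))

/-- The tile at `(i, j)`. -/
def P (i j : ℕ) (b : Bool) : Tile :=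
  ⟨decide (i % 2 = 1), decide (j % 2 = 1), eH i j, eH (i - 1) j, eH j i, eH (j - 1) i, b⟩

theorem P_tr (i j : ℕ) (b : Bool) : (P i j b).tr = P j i b := rfl

theorem v2_spec {j : ℕ} (hj : 1 ≤ j) : ∃ b, b % 2 = 1 ∧ j = 2 ^ v2 j * b := by
  obtain ⟨b, hb⟩ : 2 ^ v2 j ∣ j := pow_padicValNat_dvd
  refine ⟨b, ?_, hb⟩
  by_contra h
  have h2 : 2 ∣ b := by omega
  have h3 : 2 ^ (v2 j + 1) ∣ j := by
    rw [pow_succ]
    obtain ⟨c, rfl⟩ := h2
    exact ⟨c, by rw [mul_assoc]; exact hb⟩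
  exact pow_succ_padicValNat_not_dvd (by omega) h3

theorem div_pred (K a : ℕ) (hK : 0 < K) (ha : 1 ≤ a) : (K * a - 1) / K = a - 1 := by
  obtain ⟨c, rfl⟩ : ∃ c, a = c + 1 := ⟨a - 1, by omega⟩
  have : K * (c + 1) - 1 = (K - 1) + K * c := by
    rw [Nat.mul_succ]; omega
  rw [this, Nat.add_mul_div_left _ _ hK, Nat.div_eq_of_lt (by omega)]
  simp

theorem cross_P {i j : ℕ} (hi : 1 ≤ i) (hj : 1 ≤ j) (h : v2 i = v2 j) (bt : Bool) :
    Cross (P i j bt) := by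
  obtain ⟨a, ha, hia⟩ := v2_spec hi
  obtain ⟨b, hb, hjb⟩ := v2_spec hj
  have hK : 0 < 2 ^ v2 j := by positivity
  rw [h] at hia
  have e1 : i / 2 ^ v2 j = a := by
    conv_lhs => rw [hia]
    exact Nat.mul_div_cancel_left _ hK
  have e2 : j / 2 ^ v2 j = b := by
    conv_lhs => lhs; rw [hjb]
    exact Nat.mul_div_cancel_left _ hK
  have e3 : (i - 1) / 2 ^ v2 j = a - 1 := by
    conv_lhs => rw [hia]
    exact div_pred _ _ hK (by omega)
  have e4 : (j - 1) / 2 ^ v2 j = b - 1 := by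
    conv_lhs => lhs; rw [hjb]
    exact div_pred _ _ hK (by omega)
  refine ⟨decide (a % 4 = 1), decide (b % 4 = 1), ?_, ?_, ?_, ?_⟩
  · simp only [P, eH, e1, e2, Prod.mk.injEq]
    refine ⟨by simp [ha], ?_, trivial⟩
    rw [decide_eq_decide]; omega
  · simp only [P, eH, e2, e3, Prod.mk.injEq]
    refine ⟨by simp; omega, ?_, trivial⟩
    rw [← decide_not, decide_eq_decide]; omega
  · simp only [P, eH, h, e1, e2, Prod.mk.injEq]
    refine ⟨by simp [hb], ?_, trivial⟩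
    rw [decide_eq_decide]; omega
  · simp only [P, eH, h, e1, e4, Prod.mk.injEq]
    refine ⟨by simp; omega, ?_, trivial⟩
    rw [← decide_not, decide_eq_decide]; omega

theorem harm_P {i j : ℕ} (hi : 1 ≤ i) (hj : 1 ≤ j) (h : v2 i < v2 j) (bt : Bool) :
    HArm (P i j bt) := by
  obtain ⟨a, ha, hia⟩ := v2_spec hi
  obtain ⟨b, hb, hjb⟩ := v2_spec hj
  obtain ⟨s, hs⟩ : ∃ s, v2 j = v2 i + 1 + s := ⟨v2 j - (v2 i + 1), by omega⟩
  have hK : 0 < 2 ^ v2 i := by positivity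
  have hK' : 0 < 2 ^ v2 j := by positivity
  have e1 : i / 2 ^ v2 i = a := by
    conv_lhs => lhs; rw [hia]
    exact Nat.mul_div_cancel_left _ hK
  have hM : j = 2 ^ v2 i * (2 ^ (s + 1) * b) := by
    conv_lhs => rw [hjb]
    rw [hs]; ring
  have e2 : j / 2 ^ v2 i = 2 ^ (s + 1) * b := by
    conv_lhs => rw [hM]
    exact Nat.mul_div_cancel_left _ hK
  have e4 : (j - 1) / 2 ^ v2 i = 2 ^ (s + 1) * b - 1 := by
    conv_lhs => rw [hM]
    exact div_pred _ _ hK (Nat.one_le_iff_ne_zero.2 (by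
      have : b ≠ 0 := by rintro rfl; simp at hb
      positivity))
  -- the floor of i / 2^l does not change
  have e5 : (i - 1) / 2 ^ v2 j = i / 2 ^ v2 j := by
    have hnd : ¬ 2 ^ v2 j ∣ i := by
      intro hd
      have : 2 ^ (v2 i + 1) ∣ i := (pow_dvd_pow 2 (by omega)).trans hd
      exact pow_succ_padicValNat_not_dvd (by omega) this
    obtain ⟨i', rfl⟩ : ∃ i', i = i' + 1 := ⟨i - 1, by omega⟩
    rw [Nat.add_sub_cancel, Nat.succ_div_of_not_dvd hnd]
  have hMpos : 1 ≤ 2 ^ (s + 1) * b := Nat.one_le_iff_ne_zero.2 (by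
      have : b ≠ 0 := by rintro rfl; simp at hb
      positivity)
  have hMev : (2 ^ (s + 1) * b) % 2 = 0 := by
    rw [pow_succ]
    have : 2 ^ s * 2 * b = 2 * (2 ^ s * b) := by ring
    rw [this]; omega
  refine ⟨decide ((2 ^ (s + 1) * b) % 4 = 2), decide (a % 4 = 1), ?_, ?_, ?_, ?_⟩
  · simp only [P, eH, e5]
  · simp only [P, eH, e1, e2, Prod.mk.injEq]
    refine ⟨by simp [hMev], ?_, trivial⟩
    rw [decide_eq_decide]; omega
  · simp only [P, eH, e1, e4, Prod.mk.injEq]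
    refine ⟨by simp; omega, ?_, trivial⟩
    rw [decide_eq_decide]; omega
  · intro hc
    rw [decide_eq_true_eq] at hc
    have hs0 : s = 0 := by
      by_contra hne
      obtain ⟨s', rfl⟩ : ∃ s', s = s' + 1 := ⟨s - 1, by omega⟩
      have : 2 ^ (s' + 1 + 1) * b = 4 * (2 ^ s' * b) := by ring
      rw [this] at hc
      omega
    subst hs0
    have e6 : i / 2 ^ v2 j = a / 2 := by
      have : 2 ^ v2 j = 2 ^ v2 i * 2 := by rw [hs]; ring
      rw [this, ← Nat.div_div_eq_div_mul, e1]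
    simp only [P, eH, e6]
    rw [← decide_not, decide_eq_decide]
    omega

theorem varm_P {i j : ℕ} (hi : 1 ≤ i) (hj : 1 ≤ j) (h : v2 j < v2 i) (bt : Bool) :
    VArm (P i j bt) := by
  rw [← harm_tr, P_tr]
  exact harm_P hj hi h bt

theorem v2_odd {i : ℕ} (h : i % 2 = 1) : v2 i = 0 := by
  unfold v2
  apply padicValNat.eq_zero_of_not_dvd
  omega

theorem v2_even {i : ℕ} (hi : 1 ≤ i) (h : i % 2 = 0) : 1 ≤ v2 i := by
  obtain ⟨b, hb, hib⟩ := v2_spec hi
  by_contra hc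
  have : v2 i = 0 := by omega
  rw [this] at hib
  omega

theorem valid_P {i j : ℕ} (hi : 1 ≤ i) (hj : 1 ≤ j) (bt : Bool) : Valid (P i j bt) := by
  refine ⟨?_, ?_, ?_, ?_⟩
  · rcases lt_trichotomy (v2 i) (v2 j) with h | h | h
    · exact Or.inr (Or.inl (harm_P hi hj h bt))
    · exact Or.inl (cross_P hi hj h bt)
    · exact Or.inr (Or.inr (varm_P hi hj h bt))
  · intro h1 h2
    simp only [P, decide_eq_true_eq] at h1 h2
    exact cross_P hi hj (by rw [v2_odd h1, v2_odd h2]) bt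
  · intro h1 h2
    simp only [P, decide_eq_true_eq, decide_eq_false_iff_not] at h1 h2
    exact harm_P hi hj (by rw [v2_odd h1]; exact v2_even hj (by omega)) bt
  · intro h1 h2
    simp only [P, decide_eq_true_eq, decide_eq_false_iff_not] at h1 h2
    exact varm_P hi hj (by rw [v2_odd h2]; exact v2_even hi (by omega)) bt

/-- entry signals are simple and point out -/
theorem eH_zero (j : ℕ) : (eH 0 j).1 = false ∧ (eH 0 j).2.1 = false := by
  simp [eH]

/-- exit signals are simple and point out, except for the central one -/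
theorem eH_exit {n j : ℕ} (hn : 1 ≤ n) (hj : 1 ≤ j) (hj2 : j < 2 ^ n) (hc : j ≠ 2 ^ (n - 1)) :
    (eH (2 ^ n - 1) j).1 = true ∧ (eH (2 ^ n - 1) j).2.1 = false := by
  obtain ⟨b, hb, hjb⟩ := v2_spec hj
  have hK : 0 < 2 ^ v2 j := by positivity
  have hle : v2 j + 2 ≤ n := by
    by_contra hcon
    have h1 : v2 j < n := by
      by_contra h2
      have : 2 ^ n ≤ 2 ^ v2 j := Nat.pow_le_pow_right (by norm_num) (by omega)
      have : 2 ^ v2 j ≤ j := by
        conv_rhs => rw [hjb]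
        exact Nat.le_mul_of_pos_right _ (by omega)
      omega
    have h3 : v2 j = n - 1 := by omega
    rw [h3] at hjb
    have h4 : 2 ^ n = 2 ^ (n - 1) * 2 := by rw [← pow_succ]; congr 1; omega
    have h5 : 2 ^ (n - 1) * b < 2 ^ (n - 1) * 2 := by rw [← hjb, ← h4]; exact hj2
    have h6 : b < 2 := lt_of_mul_lt_mul_left h5 (Nat.zero_le _)
    have h7 : b = 1 := by omega
    rw [h7, mul_one] at hjb
    exact hc hjb
  obtain ⟨m, hm⟩ : ∃ m, n = v2 j + 2 + m := ⟨n - (v2 j + 2), by omega⟩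
  have e : (2 ^ n - 1) / 2 ^ v2 j = 2 ^ (m + 2) - 1 := by
    have : 2 ^ n = 2 ^ v2 j * 2 ^ (m + 2) := by rw [hm]; ring
    rw [this]
    exact div_pred _ _ hK Nat.one_le_two_pow
  have e2 : 2 ^ (m + 2) = 4 * 2 ^ m := by ring
  have e3 : 1 ≤ 2 ^ m := Nat.one_le_two_pow
  simp only [eH, e, e2]
  constructor
  · simp; omega
  · simp only [decide_eq_false_iff_not]; omega

/-- coordinates inside the pattern -/
def In (N i : ℕ) : Prop := 1 ≤ i ∧ i < N

instance (N i : ℕ) : Decidable (In N i) := inferInstanceAs (Decidable (_ ∧ _))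

/-- The pattern of side `N - 1` in a blank sea. -/
def F (N : ℕ) (bt : ℕ → ℕ → Bool) (i j : ℕ) : Option Tile :=
  if In N i ∧ In N j then some (P i j (bt i j)) else none

theorem F_ne_none {N : ℕ} {bt : ℕ → ℕ → Bool} {i j : ℕ} : F N bt i j ≠ none ↔ In N i ∧ In N j := by
  unfold F
  split_ifs with h <;> simp [h]

theorem F_tr {N : ℕ} {bt : ℕ → ℕ → Bool} {i j : ℕ} :
    (F N bt i j).map Tile.tr = F N (fun a b => bt b a) j i := by
  unfold F
  by_cases h : In N i ∧ In N j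
  · rw [if_pos h, if_pos h.symm]
    rfl
  · rw [if_neg h, if_neg (fun h' => h h'.symm)]
    rfl

theorem F_hok {n : ℕ} (hn : 1 ≤ n) {bt : ℕ → ℕ → Bool} {i j : ℕ}
    (h : ¬ (i = 2 ^ n - 1 ∧ j = 2 ^ (n - 1))) :
    HOk (F (2 ^ n) bt i j) (F (2 ^ n) bt (i + 1) j) := by
  unfold F
  have h2n : 2 ≤ 2 ^ n := by
    calc 2 = 2 ^ 1 := rfl
      _ ≤ 2 ^ n := Nat.pow_le_pow_right (by norm_num) hn
  have hev : 2 ^ n % 2 = 0 := by
    obtain ⟨m, rfl⟩ : ∃ m, n = m + 1 := ⟨n - 1, by omega⟩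
    rw [pow_succ]; omega
  by_cases h1 : In (2 ^ n) i ∧ In (2 ^ n) j
  · by_cases h2 : In (2 ^ n) (i + 1) ∧ In (2 ^ n) j
    · rw [if_pos h1, if_pos h2]
      refine ⟨rfl, ?_, rfl⟩
      simp only [P]
      rw [← decide_not, decide_eq_decide]
      omega
    · rw [if_pos h1, if_neg h2]
      have hi : i = 2 ^ n - 1 := by
        unfold In at h1 h2
        omega
      subst hi
      have hj : j ≠ 2 ^ (n - 1) := fun hj => h ⟨rfl, hj⟩
      have h3 := eH_exit hn h1.2.1 h1.2.2 hj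
      refine ⟨h3.1, h3.2, ?_⟩
      simp only [P, decide_eq_true_eq]
      omega
  · by_cases h2 : In (2 ^ n) (i + 1) ∧ In (2 ^ n) j
    · rw [if_neg h1, if_pos h2]
      have hi : i = 0 := by
        unfold In at h1 h2
        omega
      subst hi
      refine ⟨(eH_zero j).1, (eH_zero j).2, ?_⟩
      simp [P]
    · rw [if_neg h1, if_neg h2]
      trivial

theorem F_vok {n : ℕ} (hn : 1 ≤ n) {bt : ℕ → ℕ → Bool} {i j : ℕ}
    (h : ¬ (j = 2 ^ n - 1 ∧ i = 2 ^ (n - 1))) :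
    VOk (F (2 ^ n) bt i j) (F (2 ^ n) bt i (j + 1)) := by
  have h1 := F_hok hn (bt := fun a b => bt b a) h
  have e1 := F_tr (N := 2 ^ n) (bt := bt) (i := i) (j := j)
  have e2 := F_tr (N := 2 ^ n) (bt := bt) (i := i) (j := j + 1)
  rw [← e1, ← e2] at h1
  exact hok_tr.1 h1

/-- All windows of the pattern are good with at most four exceptions. -/
theorem F_good {n : ℕ} (hn : 1 ≤ n) {bt : ℕ → ℕ → Bool} {i j : ℕ}
    (h : (i, j) ∉ ({(2 ^ n - 1, 2 ^ (n - 1)), (2 ^ n - 1, 2 ^ (n - 1) - 1),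
      (2 ^ (n - 1), 2 ^ n - 1), (2 ^ (n - 1) - 1, 2 ^ n - 1)} : Finset (ℕ × ℕ))) :
    Good (F (2 ^ n) bt i j) (F (2 ^ n) bt (i + 1) j) (F (2 ^ n) bt i (j + 1))
      (F (2 ^ n) bt (i + 1) (j + 1)) := by
  simp only [Finset.mem_insert, Finset.mem_singleton, Prod.mk.injEq, not_or] at h
  obtain ⟨h1, h2, h3, h4⟩ := h
  have hpos : 1 ≤ 2 ^ (n - 1) := Nat.one_le_two_pow
  refine ⟨?_, F_hok hn h1, F_hok hn (by omega), F_vok hn (by omega), F_vok hn (by omega), ?_, ?_⟩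
  · intro t ht
    unfold F at ht
    split_ifs at ht with hh
    rw [← Option.some.inj ht]
    exact valid_P hh.1.1 hh.2.1 _
  · intro a1 a2
    rw [F_ne_none] at a1 a2 ⊢
    rw [F_ne_none]
    exact ⟨⟨a2.1, a1.2⟩, ⟨a1.1, a2.2⟩⟩
  · intro a1 a2
    rw [F_ne_none] at a1 a2 ⊢
    rw [F_ne_none]
    exact ⟨⟨a2.1, a1.2⟩, ⟨a1.1, a2.2⟩⟩

end Pool.Agent.Tile31
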