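import Pool.Agent.Tile31.Torus
import Pool.Agent.Tile31.Ham

/-!
# Stacking an arbitrary gapped family with the layer of tiles
-/

set_option autoImplicit false
set_option linter.unusedSectionVars false

open scoped Matrix

namespace Pool.Agent.Tile31

variable {r : ℕ} {S : Type} [Fintype S] [DecidableEq S]

/-- the corners of the box -/
def corner (r : ℕ) (a b : Bool) : Box (r + 2) := (if a then 1 else 0, if b then 1 else 0)

open scoped Classical in
/-- the penalty of the tile layer -/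
noncomputable def loc (w : Box (r + 2) → Option Tile) : ℝ :=
  if Good (w (corner r false false)) (w (corner r true false)) (w (corner r false true))
    (w (corner r true true)) then 0 else 1

open scoped Classical in
/-- The stacked interaction. -/
noncomputable def stackH (h : Matrix (Box (r + 2) → S) (Box (r + 2) → S) ℂ) (Δ : ℝ) :
    Matrix (Box (r + 2) → S × Option Tile) (Box (r + 2) → S × Option Tile) ℂ := fun w w' =>
  (if (fun a => (w a).2) = (fun a => (w' a).2) then
    h (fun a => (w a).1) (fun a => (w' a).1) else 0) +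
  (if w = w' then ((Δ * loc fun a => (w a).2 : ℝ) : ℂ) else 0)

/-- pairing of configurations -/
def pair {L : ℕ} {T : Type} (σ : Conf L S) (ρ : Conf L T) : Conf L (S × T) :=
  fun x => (σ x, ρ x)

theorem pair_inj {L : ℕ} {T : Type} {σ σ' : Conf L S} {ρ ρ' : Conf L T} :
    pair σ ρ = pair σ' ρ' ↔ σ = σ' ∧ ρ = ρ' := by
  constructor
  · intro h
    constructor
    · funext x; exact congrArg Prod.fst (congrFun h x)
    · funext x; exact congrArg Prod.snd (congrFun h x)
  · rintro ⟨rfl, rfl⟩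
    rfl

theorem sum_pair {L : ℕ} [NeZero L] {T : Type} [Fintype T] [DecidableEq T] {M : Type*}
    [AddCommMonoid M] (F : Conf L (S × T) → M) :
    ∑ σ, F σ = ∑ ρ : Conf L T, ∑ σ : Conf L S, F (pair σ ρ) := by
  rw [← Equiv.sum_comp (Equiv.arrowProdEquivProdArrow (Site L) (fun _ => S) (fun _ => T)).symm F,
    Fintype.sum_prod_type, Finset.sum_comm]
  rfl

open scoped Classical in
theorem term_stack {L : ℕ} [NeZero L] (h : Matrix (Box (r + 2) → S) (Box (r + 2) → S) ℂ) (Δ : ℝ)
    (τ : Site L) (σ σ' : Conf L S) (ρ ρ' : Conf L (Option Tile)) :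
    term (stackH h Δ) τ (pair σ ρ) (pair σ' ρ') =
      (if ρ = ρ' then term h τ σ σ' else 0) +
      (if σ = σ' ∧ ρ = ρ' then
        ((Δ * loc fun a : Box (r + 2) => ρ (boxPos L τ a) : ℝ) : ℂ) else 0) := by
  have key : ∀ {T : Type} (α β : Conf L T), (∀ x, (∀ a : Box (r + 2), x ≠ boxPos L τ a) →
      α x = β x) → ((fun a : Box (r + 2) => α (boxPos L τ a)) = fun a => β (boxPos L τ a)) →
      α = β := by
    intro T α β h1 h2
    funext x
    by_cases h3 : ∀ a : Box (r + 2), x ≠ boxPos L τ a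
    · exact h1 x h3
    · push Not at h3
      obtain ⟨a, rfl⟩ := h3
      exact congrFun h2 a
  unfold term stackH
  by_cases hout : ∀ x, (∀ a : Box (r + 2), x ≠ boxPos L τ a) → pair σ ρ x = pair σ' ρ' x
  · rw [if_pos hout]
    have ho1 : ∀ x, (∀ a : Box (r + 2), x ≠ boxPos L τ a) → σ x = σ' x :=
      fun x hx => congrArg Prod.fst (hout x hx)
    have ho2 : ∀ x, (∀ a : Box (r + 2), x ≠ boxPos L τ a) → ρ x = ρ' x :=
      fun x hx => congrArg Prod.snd (hout x hx)
    rw [if_pos ho1]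
    have e1 : ((fun a : Box (r + 2) => (pair σ ρ (boxPos L τ a)).2) =
        fun a => (pair σ' ρ' (boxPos L τ a)).2) ↔ ρ = ρ' :=
      ⟨fun h2 => key ρ ρ' ho2 h2, by rintro rfl; rfl⟩
    have e2 : ((fun a : Box (r + 2) => pair σ ρ (boxPos L τ a)) =
        fun a => pair σ' ρ' (boxPos L τ a)) ↔ (σ = σ' ∧ ρ = ρ') :=
      ⟨fun h2 => pair_inj.1 (key _ _ hout h2), by rintro ⟨rfl, rfl⟩; rfl⟩
    simp only [e1, e2]
    rfl
  · rw [if_neg hout]
    have h1 : ¬ (σ = σ' ∧ ρ = ρ') := by
      rintro ⟨rfl, rfl⟩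
      exact hout fun _ _ => rfl
    rw [if_neg h1, add_zero]
    by_cases h2 : ρ = ρ'
    · subst h2
      rw [if_pos rfl, if_neg]
      intro h3
      exact hout fun x hx => Prod.ext (h3 x hx) rfl
    · rw [if_neg h2]

theorem sum_loc {L : ℕ} [NeZero L] (ρ : Conf L (Option Tile)) :
    ∑ τ : Site L, loc (fun a : Box (r + 2) => ρ (boxPos L τ a)) =
      energy (fun i j => ρ (i, j)) := by
  classical
  unfold energy loc
  rw [Finset.card_filter]
  push_cast
  refine Finset.sum_congr rfl fun z _ => ?_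
  simp only [boxPos, corner]
  simp

open scoped Classical in
theorem ham_stack {L : ℕ} [NeZero L] (h : Matrix (Box (r + 2) → S) (Box (r + 2) → S) ℂ) (Δ : ℝ)
    (σ σ' : Conf L S) (ρ ρ' : Conf L (Option Tile)) :
    ham L (stackH h Δ) (pair σ ρ) (pair σ' ρ') =
      (if ρ = ρ' then ham L h σ σ' else 0) +
      (if σ = σ' ∧ ρ = ρ' then ((Δ * energy fun i j => ρ (i, j) : ℝ) : ℂ) else 0) := by
  unfold ham
  rw [Matrix.sum_apply, Matrix.sum_apply]
  simp_rw [term_stack]
  rw [Finset.sum_add_distrib]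
  congr 1
  · by_cases h2 : ρ = ρ'
    · simp [h2]
    · simp [h2]
  · by_cases h2 : σ = σ' ∧ ρ = ρ'
    · simp only [if_pos h2]
      rw [← sum_loc (r := r), Finset.mul_sum]
      push_cast
      rfl
    · simp [h2]

/-- The stacked Hamiltonian acts on the sections. -/
theorem ham_stack_mulVec {L : ℕ} [NeZero L]
    (h : Matrix (Box (r + 2) → S) (Box (r + 2) → S) ℂ) (Δ : ℝ)
    (φ : Conf L (S × Option Tile) → ℂ) (σ : Conf L S) (ρ : Conf L (Option Tile)) :
    (ham L (stackH h Δ) *ᵥ φ) (pair σ ρ) = (ham L h *ᵥ fun σ' => φ (pair σ' ρ)) σ +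
      ((Δ * energy fun i j => ρ (i, j) : ℝ) : ℂ) * φ (pair σ ρ) := by
  classical
  unfold Matrix.mulVec dotProduct
  rw [sum_pair]
  simp_rw [ham_stack, add_mul, ite_mul, zero_mul]
  rw [Finset.sum_comm]
  simp_rw [Finset.sum_add_distrib]
  congr 1
  · refine Finset.sum_congr rfl fun σ' _ => ?_
    rw [Finset.sum_ite_eq]
    simp
  · have : ∀ σ' : Conf L S, ∑ ρ' : Conf L (Option Tile),
        (if σ = σ' ∧ ρ = ρ' then ((Δ * energy fun i j => ρ (i, j) : ℝ) : ℂ) * φ (pair σ' ρ')
          else 0) = if σ = σ' then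
            ((Δ * energy fun i j => ρ (i, j) : ℝ) : ℂ) * φ (pair σ' ρ) else 0 := by
      intro σ'
      by_cases h1 : σ = σ'
      · simp [h1]
      · simp [h1]
    simp_rw [this]
    simp

theorem nsq_pair {L : ℕ} [NeZero L] (φ : Conf L (S × Option Tile) → ℂ) :
    nsq φ = ∑ ρ : Conf L (Option Tile), nsq fun σ => φ (pair σ ρ) := by
  unfold nsq
  rw [sum_pair]

theorem ip_pair {L : ℕ} [NeZero L] (φ ψ : Conf L (S × Option Tile) → ℂ) :
    ip φ ψ = ∑ ρ : Conf L (Option Tile), ip (fun σ => φ (pair σ ρ)) fun σ => ψ (pair σ ρ) := by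
  unfold ip
  rw [sum_pair]

theorem isHermitian_term {L : ℕ} {h : Matrix (Box r → S) (Box r → S) ℂ} (hh : h.IsHermitian)
    (τ : Site L) : (term h τ : Matrix (Conf L S) (Conf L S) ℂ).IsHermitian := by
  ext σ σ'
  rw [Matrix.conjTranspose_apply]
  unfold term
  have e : (∀ x, (∀ a : Box r, x ≠ boxPos L τ a) → σ' x = σ x) ↔
      (∀ x, (∀ a : Box r, x ≠ boxPos L τ a) → σ x = σ' x) :=
    ⟨fun h x hx => (h x hx).symm, fun h x hx => (h x hx).symm⟩
  by_cases h1 : ∀ x, (∀ a : Box r, x ≠ boxPos L τ a) → σ x = σ' x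
  · rw [if_pos h1, if_pos (e.2 h1)]
    exact hh.apply _ _
  · rw [if_neg h1, if_neg (fun h2 => h1 (e.1 h2))]
    simp

theorem isHermitian_ham {L : ℕ} [NeZero L] {h : Matrix (Box r → S) (Box r → S) ℂ}
    (hh : h.IsHermitian) : (ham L h).IsHermitian := by
  unfold ham
  unfold Matrix.IsHermitian
  rw [Matrix.conjTranspose_sum]
  exact Finset.sum_congr rfl fun τ _ => isHermitian_term hh τ

theorem isHermitian_stackH {h : Matrix (Box (r + 2) → S) (Box (r + 2) → S) ℂ}
    (hh : h.IsHermitian) (Δ : ℝ) : (stackH h Δ).IsHermitian := by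
  ext w w'
  rw [Matrix.conjTranspose_apply]
  unfold stackH
  rw [star_add]
  congr 1
  · by_cases h1 : (fun a => (w a).2) = (fun a => (w' a).2)
    · rw [if_pos h1, if_pos h1.symm]
      exact hh.apply _ _
    · rw [if_neg h1, if_neg (fun h2 => h1 h2.symm)]
      simp
  · by_cases h1 : w = w'
    · subst h1
      simp only [if_true]
      exact Complex.conj_ofReal _
    · rw [if_neg h1, if_neg (fun h2 => h1 h2.symm)]
      simp

end Pool.Agent.Tile31
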