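import Pool.Agent.Tile31.Defs

/-!
# Subsampling a good configuration
-/

set_option autoImplicit false

namespace Pool.Agent.Tile31

variable {A B : Type*} [AddCommGroup A] [One A] [AddCommGroup B] [One B]

/-- transposed tile -/
def Tile.tr (t : Tile) : Tile := ⟨t.q, t.p, t.u, t.d, t.r, t.l, t.bit⟩

theorem cross_tr {t : Tile} : Cross t.tr ↔ Cross t := by
  constructor
  · rintro ⟨h, v, h1, h2, h3, h4⟩
    exact ⟨v, h, h3, h4, h1, h2⟩
  · rintro ⟨h, v, h1, h2, h3, h4⟩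
    exact ⟨v, h, h3, h4, h1, h2⟩

theorem harm_tr {t : Tile} : HArm t.tr ↔ VArm t := Iff.rfl

theorem varm_tr {t : Tile} : VArm t.tr ↔ HArm t := Iff.rfl

theorem valid_tr {t : Tile} : Valid t.tr ↔ Valid t := by
  unfold Valid
  rw [cross_tr, harm_tr, varm_tr]
  have e1 : t.tr.p = t.q := rfl
  have e2 : t.tr.q = t.p := rfl
  rw [e1, e2]
  tauto

/-- transposed configuration -/
def trc (x : A → A → Option Tile) : A → A → Option Tile := fun i j => (x j i).map Tile.tr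

theorem hok_tr {a b : Option Tile} : HOk (a.map Tile.tr) (b.map Tile.tr) ↔ VOk a b := by
  cases a <;> cases b <;> rfl

theorem vok_tr {a b : Option Tile} : VOk (a.map Tile.tr) (b.map Tile.tr) ↔ HOk a b := by
  cases a <;> cases b <;> rfl

theorem isGood_trc {x : A → A → Option Tile} (hx : IsGood x) : IsGood (trc x) := by
  intro i j
  obtain ⟨h1, h2, h3, h4, h5, h6, h7⟩ := hx j i
  refine ⟨?_, ?_, ?_, ?_, ?_, ?_, ?_⟩
  · intro t ht
    unfold trc at ht
    rw [Option.map_eq_some_iff] at ht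
    obtain ⟨s, hs, rfl⟩ := ht
    exact valid_tr.2 (h1 s hs)
  · exact hok_tr.2 h4
  · exact hok_tr.2 h5
  · exact vok_tr.2 h2
  · exact vok_tr.2 h3
  · intro h8 h9
    have := h6
    simp only [trc, ne_eq, Option.map_eq_none_iff] at h8 h9 ⊢
    exact h6 h9 h8
  · intro h8 h9
    simp only [trc, ne_eq, Option.map_eq_none_iff] at h8 h9 ⊢
    exact (h7 h8 h9).symm

section basic

variable {x : A → A → Option Tile} (hx : IsGood x)
include hx

theorem IsGood.valid {i j : A} {t : Tile} (h : x i j = some t) : Valid t := (hx i j).1 t h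

theorem IsGood.hok (i j : A) : HOk (x i j) (x (i + 1) j) := (hx i j).2.1

theorem IsGood.vok (i j : A) : VOk (x i j) (x i (j + 1)) := (hx i j).2.2.2.1

theorem IsGood.right {i j : A} {t : Tile} (h : x i j = some t) (hp : t.p = false) :
    ∃ s, x (i + 1) j = some s ∧ s.l = t.r ∧ s.p = true ∧ s.q = t.q := by
  have h1 := hx.hok i j
  rw [h] at h1
  cases hs : x (i + 1) j with
  | none =>
    rw [hs] at h1
    have := h1.2.2
    rw [hp] at this
    exact absurd this (by simp)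
  | some s =>
    rw [hs] at h1
    obtain ⟨h2, h3, h4⟩ := h1
    exact ⟨s, rfl, h2.symm, by rw [h3, hp]; rfl, h4⟩

theorem IsGood.left {i j : A} {t : Tile} (h : x (i + 1) j = some t) (hp : t.p = false) :
    ∃ s, x i j = some s ∧ s.r = t.l ∧ s.p = true ∧ s.q = t.q := by
  have h1 := hx.hok i j
  rw [h] at h1
  cases hs : x i j with
  | none =>
    rw [hs] at h1
    have := h1.2.2
    rw [hp] at this
    exact absurd this (by simp)
  | some s =>
    rw [hs] at h1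
    obtain ⟨h2, h3, h4⟩ := h1
    refine ⟨s, rfl, h2, ?_, h4.symm⟩
    rw [hp] at h3
    cases hh : s.p with
    | true => rfl
    | false => rw [hh] at h3; simp at h3

theorem IsGood.up {i j : A} {t : Tile} (h : x i j = some t) (hq : t.q = false) :
    ∃ s, x i (j + 1) = some s ∧ s.d = t.u ∧ s.q = true ∧ s.p = t.p := by
  have h1 := hx.vok i j
  rw [h] at h1
  cases hs : x i (j + 1) with
  | none =>
    rw [hs] at h1
    have := h1.2.2
    rw [hq] at this
    exact absurd this (by simp)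
  | some s =>
    rw [hs] at h1
    obtain ⟨h2, h3, h4⟩ := h1
    exact ⟨s, rfl, h2.symm, by rw [h3, hq]; rfl, h4⟩

theorem IsGood.down {i j : A} {t : Tile} (h : x i (j + 1) = some t) (hq : t.q = false) :
    ∃ s, x i j = some s ∧ s.u = t.d ∧ s.q = true ∧ s.p = t.p := by
  have h1 := hx.vok i j
  rw [h] at h1
  cases hs : x i j with
  | none =>
    rw [hs] at h1
    have := h1.2.2
    rw [hq] at this
    exact absurd this (by simp)
  | some s =>
    rw [hs] at h1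
    obtain ⟨h2, h3, h4⟩ := h1
    refine ⟨s, rfl, h2, ?_, h4.symm⟩
    rw [hq] at h3
    cases hh : s.q with
    | true => rfl
    | false => rw [hh] at h3; simp at h3

/-- The eight cells around an even-even cell. -/
theorem IsGood.nbhd {i j : A} {t : Tile} (h : x (i + 1) (j + 1) = some t) (hp : t.p = false)
    (hq : t.q = false) :
    ∃ (hf vf : Bool) (rt lt ut dt ne nw se sw : Tile),
      (x (i + 1 + 1) (j + 1) = some rt ∧ rt.p = true ∧ rt.q = false ∧ rt.l = t.r ∧ rt.r = t.r ∧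
        rt.u = (false, !vf, hf) ∧ rt.d = (true, !vf, hf) ∧ (vf = false → t.r.1 = !hf)) ∧
      (x i (j + 1) = some lt ∧ lt.p = true ∧ lt.q = false ∧ lt.l = t.l ∧ lt.r = t.l ∧
        lt.u = (false, !vf, !hf) ∧ lt.d = (true, !vf, !hf) ∧ (vf = false → t.l.1 = hf)) ∧
      (x (i + 1) (j + 1 + 1) = some ut ∧ ut.p = false ∧ ut.q = true ∧ ut.d = t.u ∧ ut.u = t.u ∧
        ut.r = (false, !hf, vf) ∧ ut.l = (true, !hf, vf) ∧ (hf = false → t.u.1 = !vf)) ∧
      (x (i + 1) j = some dt ∧ dt.p = false ∧ dt.q = true ∧ dt.d = t.d ∧ dt.u = t.d ∧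
        dt.r = (false, !hf, !vf) ∧ dt.l = (true, !hf, !vf) ∧ (hf = false → t.d.1 = vf)) ∧
      (x (i + 1 + 1) (j + 1 + 1) = some ne ∧ ne.p = true ∧ ne.q = true ∧ ne.r = (true, hf, vf) ∧
        ne.l = (false, !hf, vf) ∧ ne.u = (true, vf, hf) ∧ ne.d = (false, !vf, hf)) ∧
      (x i (j + 1 + 1) = some nw ∧ nw.p = true ∧ nw.q = true ∧ nw.r = (true, !hf, vf) ∧
        nw.l = (false, hf, vf) ∧ nw.u = (true, vf, !hf) ∧ nw.d = (false, !vf, !hf)) ∧
      (x (i + 1 + 1) j = some se ∧ se.p = true ∧ se.q = true ∧ se.r = (true, hf, !vf) ∧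
        se.l = (false, !hf, !vf) ∧ se.u = (true, !vf, hf) ∧ se.d = (false, vf, hf)) ∧
      (x i j = some sw ∧ sw.p = true ∧ sw.q = true ∧ sw.r = (true, !hf, !vf) ∧
        sw.l = (false, hf, !vf) ∧ sw.u = (true, !vf, !hf) ∧ sw.d = (false, vf, !hf)) := by
  obtain ⟨rt, hrt, rtl, rtp, rtq⟩ := hx.right h hp
  obtain ⟨lt, hlt, ltr, ltp, ltq⟩ := hx.left h hp
  obtain ⟨ut, hut, utd, utq, utp⟩ := hx.up h hq
  obtain ⟨dt, hdt, dtu, dtq, dtp⟩ := hx.down h hq
  rw [hq] at rtq ltq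
  rw [hp] at utp dtp
  obtain ⟨ne, hne, ned, neq, nep⟩ := hx.up hrt rtq
  obtain ⟨se, hse, seu, seq, sep⟩ := hx.down hrt rtq
  obtain ⟨nw, hnw, nwd, nwq, nwp⟩ := hx.up hlt ltq
  obtain ⟨sw, hsw, swu, swq, swp⟩ := hx.down hlt ltq
  rw [rtp] at nep sep
  rw [ltp] at nwp swp
  -- kinds
  obtain ⟨c1, e1, rtrl, rtu, rtd, rtc⟩ := (hx.valid hrt).2.2.1 rtp rtq
  obtain ⟨c2, e2, ltrl, ltu, ltd, ltc⟩ := (hx.valid hlt).2.2.1 ltp ltq
  obtain ⟨c3, e3, utud, utr, utl, utc⟩ := (hx.valid hut).2.2.2 utp utq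
  obtain ⟨c4, e4, dtud, dtr, dtl, dtc⟩ := (hx.valid hdt).2.2.2 dtp dtq
  obtain ⟨h5, v5, ner, nel, neu, ned'⟩ := (hx.valid hne).2.1 nep neq
  obtain ⟨h6, v6, nwr, nwl, nwu, nwd'⟩ := (hx.valid hnw).2.1 nwp nwq
  obtain ⟨h7, v7, ser, sel, seu', sed⟩ := (hx.valid hse).2.1 sep seq
  obtain ⟨h8, v8, swr, swl, swu', swd⟩ := (hx.valid hsw).2.1 swp swq
  -- horizontal relations in the upper and lower rows
  have k1 := hx.hok i (j + 1 + 1)
  rw [hnw, hut] at k1
  have k1' : nw.r = ut.l := k1.1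
  have k2 := hx.hok (i + 1) (j + 1 + 1)
  rw [hut, hne] at k2
  have k2' : ut.r = ne.l := k2.1
  have k3 := hx.hok i j
  rw [hsw, hdt] at k3
  have k3' : sw.r = dt.l := k3.1
  have k4 := hx.hok (i + 1) j
  rw [hdt, hse] at k4
  have k4' : dt.r = se.l := k4.1
  rw [nwr, utl] at k1'
  rw [utr, nel] at k2'
  rw [swr, dtl] at k3'
  rw [dtr, sel] at k4'
  rw [ned', rtu] at ned
  rw [seu', rtd] at seu
  rw [nwd', ltu] at nwd
  rw [swu', ltd] at swu
  simp only [Prod.mk.injEq, true_and] at k1' k2' k3' k4' ned seu nwd swu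
  obtain ⟨a1, a2⟩ := k1'
  obtain ⟨a3, a4⟩ := k2'
  obtain ⟨a5, a6⟩ := k3'
  obtain ⟨a7, a8⟩ := k4'
  obtain ⟨b1, b2⟩ := ned
  obtain ⟨b3, b4⟩ := seu
  obtain ⟨b5, b6⟩ := nwd
  obtain ⟨b7, b8⟩ := swu
  have z7 : h7 = h5 := b4.trans b2.symm
  have z7' : v7 = !v5 := b3.trans b1.symm
  have z6 : h6 = !h5 := a1.trans a3
  have z6' : v6 = v5 := a2.trans a4
  have z8 : h8 = !h5 := b8.trans (b6.symm.trans z6)
  have z8' : v8 = !v5 := b7.trans (b5.symm.trans (by rw [z6']))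
  subst z7 z7' z6 z6' z8 z8'
  have w1 : c1 = !v6 := b1.symm
  have w1' : e1 = h7 := b2.symm
  have w3 : c3 = !h7 := a3
  have w3' : e3 = v6 := a4
  have w2 : c2 = !v6 := b5.symm
  have w2' : e2 = !h7 := b6.symm
  have w4 : c4 = !h7 := a7
  have w4' : e4 = !v6 := a8
  subst w1 w1' w2 w2' w3 w3' w4 w4'
  refine ⟨e1, e3, rt, lt, ut, dt, ne, nw, se, sw, ?_, ?_, ?_, ?_, ?_, ?_, ?_, ?_⟩
  · refine ⟨hrt, rtp, rtq, rtl, rtrl.trans rtl, rtu, rtd, fun hv => ?_⟩
    rw [← rtl, ← rtrl]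
    exact rtc (by rw [hv]; rfl)
  · refine ⟨hlt, ltp, ltq, ltrl.symm.trans ltr, ltr, ltu, ltd, fun hv => ?_⟩
    rw [← ltr]
    simpa using ltc (by rw [hv]; rfl)
  · refine ⟨hut, utp, utq, utd, utud.trans utd, utr, utl, fun hv => ?_⟩
    rw [← utd, ← utud]
    exact utc (by rw [hv]; rfl)
  · refine ⟨hdt, dtp, dtq, dtud.symm.trans dtu, dtu, dtr, dtl, fun hv => ?_⟩
    rw [← dtu]
    simpa using dtc (by rw [hv]; rfl)
  · exact ⟨hne, nep, neq, ner, nel, neu, ned'⟩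
  · exact ⟨hnw, nwp, nwq, nwr, by simpa using nwl, nwu, nwd'⟩
  · exact ⟨hse, sep, seq, ser, sel, seu', by simpa using sed⟩
  · exact ⟨hsw, swp, swq, swr, by simpa using swl, swu', by simpa using swd⟩

end basic

end Pool.Agent.Tile31
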