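import Pool.Agent.Tile31.Sub

/-!
# Subsampling a good configuration, II
-/

set_option autoImplicit false

namespace Pool.Agent.Tile31

variable {A B : Type*} [AddCommGroup A] [One A] [AddCommGroup B] [One B]

/-- an even-even cell -/
def Ev (x : A → A → Option Tile) (i j : A) (t : Tile) : Prop :=
  x i j = some t ∧ t.p = false ∧ t.q = false

/-- change the parity labels -/
def Tile.setPar (t : Tile) (p q : Bool) : Tile := { t with p := p, q := q }

/-- The subsampled configuration: keep the even-even cells, with new parity labels read off from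
the facing of the cross to the upper right. -/
def sub (x : A → A → Option Tile) (φ ψ : B → A) (a b : B) : Option Tile :=
  match x (φ a) (ψ b), x (φ a + 1) (ψ b + 1) with
  | some t, some c =>
    if t.p = false ∧ t.q = false then some (t.setPar (!c.r.2.1) (!c.u.2.1)) else none
  | _, _ => none

theorem sub_eq_of {x : A → A → Option Tile} {φ ψ : B → A} {a b : B} {t c : Tile}
    (h : Ev x (φ a) (ψ b) t) (hc : x (φ a + 1) (ψ b + 1) = some c) :
    sub x φ ψ a b = some (t.setPar (!c.r.2.1) (!c.u.2.1)) := by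
  obtain ⟨h1, h2, h3⟩ := h
  unfold sub
  rw [h1, hc]
  simp [h2, h3]

theorem ev_of_sub {x : A → A → Option Tile} {φ ψ : B → A} {a b : B} {s : Tile}
    (h : sub x φ ψ a b = some s) : ∃ t c, Ev x (φ a) (ψ b) t ∧ x (φ a + 1) (ψ b + 1) = some c ∧
      s = t.setPar (!c.r.2.1) (!c.u.2.1) := by
  unfold sub at h
  split at h
  · next t c h1 h2 =>
    split_ifs at h with h3
    exact ⟨t, c, ⟨h1, h3.1, h3.2⟩, h2, (Option.some.inj h).symm⟩
  · simp at h

theorem sub_trc (x : A → A → Option Tile) (φ ψ : B → A) (a b : B) :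
    sub (trc x) ψ φ b a = (sub x φ ψ a b).map Tile.tr := by
  unfold sub trc
  cases h1 : x (φ a) (ψ b) with
  | none => simp
  | some t =>
    cases h2 : x (φ a + 1) (ψ b + 1) with
    | none => simp
    | some c =>
      simp only [Option.map_some]
      have e : (t.tr.p = false ∧ t.tr.q = false) ↔ (t.p = false ∧ t.q = false) := and_comm
      by_cases h3 : t.p = false ∧ t.q = false
      · rw [if_pos h3, if_pos (e.2 h3)]
        rfl
      · rw [if_neg h3, if_neg (fun h => h3 (e.1 h))]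
        rfl

section

variable {x : A → A → Option Tile} (hx : IsGood x)
include hx

/-- Summary: an even cell at `(i+1, j+1)`. -/
theorem IsGood.sub_center {φ ψ : B → A} {a b : B} {i j : A} (hi : φ a = i + 1) (hj : ψ b = j + 1)
    {t : Tile} (h : Ev x (i + 1) (j + 1) t) :
    ∃ (hf vf : Bool) (rt lt ut dt ne nw se sw : Tile),
      sub x φ ψ a b = some (t.setPar (!hf) (!vf)) ∧
      (x (i + 1 + 1) (j + 1) = some rt ∧ rt.p = true ∧ rt.q = false ∧ rt.l = t.r ∧ rt.r = t.r ∧
        rt.u = (false, !vf, hf) ∧ rt.d = (true, !vf, hf) ∧ (vf = false → t.r.1 = !hf)) ∧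
      (x i (j + 1) = some lt ∧ lt.p = true ∧ lt.q = false ∧ lt.l = t.l ∧ lt.r = t.l ∧
        lt.u = (false, !vf, !hf) ∧ lt.d = (true, !vf, !hf) ∧ (vf = false → t.l.1 = hf)) ∧
      (x (i + 1) (j + 1 + 1) = some ut ∧ ut.p = false ∧ ut.q = true ∧ ut.d = t.u ∧ ut.u = t.u ∧
        ut.r = (false, !hf, vf) ∧ ut.l = (true, !hf, vf) ∧ (hf = false → t.u.1 = !vf)) ∧
      (x (i + 1) j = some dt ∧ dt.p = false ∧ dt.q = true ∧ dt.d = t.d ∧ dt.u = t.d ∧
        dt.r = (false, !hf, !vf) ∧ dt.l = (true, !hf, !vf) ∧ (hf = false → t.d.1 = vf)) ∧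
      (x (i + 1 + 1) (j + 1 + 1) = some ne ∧ ne.p = true ∧ ne.q = true ∧ ne.r = (true, hf, vf) ∧
        ne.l = (false, !hf, vf) ∧ ne.u = (true, vf, hf) ∧ ne.d = (false, !vf, hf)) ∧
      (x i (j + 1 + 1) = some nw ∧ nw.p = true ∧ nw.q = true ∧ nw.r = (true, !hf, vf) ∧
        nw.l = (false, hf, vf) ∧ nw.u = (true, vf, !hf) ∧ nw.d = (false, !vf, !hf)) ∧
      (x (i + 1 + 1) j = some se ∧ se.p = true ∧ se.q = true ∧ se.r = (true, hf, !vf) ∧
        se.l = (false, !hf, !vf) ∧ se.u = (true, !vf, hf) ∧ se.d = (false, vf, hf)) ∧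
      (x i j = some sw ∧ sw.p = true ∧ sw.q = true ∧ sw.r = (true, !hf, !vf) ∧
        sw.l = (false, hf, !vf) ∧ sw.u = (true, !vf, !hf) ∧ sw.d = (false, vf, !hf)) := by
  obtain ⟨hf, vf, rt, lt, ut, dt, ne, nw, se, sw, h1, h2, h3, h4, h5, h6, h7, h8⟩ :=
    hx.nbhd h.1 h.2.1 h.2.2
  refine ⟨hf, vf, rt, lt, ut, dt, ne, nw, se, sw, ?_, h1, h2, h3, h4, h5, h6, h7, h8⟩
  have e1 : Ev x (φ a) (ψ b) t := by rw [hi, hj]; exact h
  have e2 : x (φ a + 1) (ψ b + 1) = some ne := by rw [hi, hj]; exact h5.1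
  rw [sub_eq_of e1 e2, h5.2.2.2.1, h5.2.2.2.2.2.1]

theorem IsGood.sub_none {φ ψ : B → A} {a b : B} {i j : A} (hi : φ a = i + 1) (hj : ψ b = j + 1)
    (h : ∀ t, ¬ Ev x (i + 1) (j + 1) t) : sub x φ ψ a b = none := by
  cases hs : sub x φ ψ a b with
  | none => rfl
  | some s =>
    obtain ⟨t, c, h1, -⟩ := ev_of_sub hs
    rw [hi, hj] at h1
    exact absurd h1 (h t)

theorem IsGood.sub_hok {φ ψ : B → A} (hφ : ∀ a, φ (a + 1) = φ a + 1 + 1) (a b : B) :
    HOk (sub x φ ψ a b) (sub x φ ψ (a + 1) b) := by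
  obtain ⟨i, hi⟩ : ∃ i, φ a = i + 1 := ⟨φ a - 1, by simp⟩
  obtain ⟨j, hj⟩ : ∃ j, ψ b = j + 1 := ⟨ψ b - 1, by simp⟩
  have hi' : φ (a + 1) = i + 1 + 1 + 1 := by rw [hφ, hi]
  by_cases h1 : ∃ t, Ev x (i + 1) (j + 1) t
  · obtain ⟨t, ht⟩ := h1
    obtain ⟨hf, vf, rt, lt, ut, dt, ne, nw, se, sw, hs, c1, c2, c3, c4, c5, c6, c7, c8⟩ :=
      hx.sub_center (φ := φ) (ψ := ψ) hi hj ht
    rw [hs]
    by_cases h2 : ∃ t, Ev x (i + 1 + 1 + 1) (j + 1) t
    · obtain ⟨t', ht'⟩ := h2
      obtain ⟨hf', vf', rt', lt', ut', dt', ne', nw', se', sw', hs', d1, d2, d3, d4, d5, d6, d7,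
        d8⟩ := hx.sub_center (φ := φ) (ψ := ψ) hi' hj ht'
      rw [hs']
      have e1 : rt = lt' := Option.some.inj (c1.1.symm.trans d2.1)
      have e2 : ne = nw' := Option.some.inj (c5.1.symm.trans d6.1)
      have e3 : (true, hf, vf) = (true, !hf', vf') := by
        rw [← c5.2.2.2.1, ← d6.2.2.2.1, e2]
      simp only [Prod.mk.injEq, true_and] at e3
      obtain ⟨e4, e5⟩ := e3
      refine ⟨?_, ?_, ?_⟩
      · change t.r = t'.l
        rw [← c1.2.2.2.1, e1, d2.2.2.2.1]
      · change (!hf') = !(!hf)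
        rw [e4]
        simp
      · change (!vf') = !vf
        rw [e5]
    · push Not at h2
      rw [hx.sub_none (φ := φ) (ψ := ψ) hi' hj h2]
      have k1 := hx.hok (i + 1 + 1) (j + 1)
      rw [c1.1] at k1
      have k2 : x (i + 1 + 1 + 1) (j + 1) = none := by
        cases hh : x (i + 1 + 1 + 1) (j + 1) with
        | none => rfl
        | some u =>
          rw [hh] at k1
          exfalso
          refine h2 u ⟨hh, ?_, ?_⟩
          · rw [k1.2.1, c1.2.1]; rfl
          · rw [k1.2.2, c1.2.2.1]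
      rw [k2] at k1
      have k3 := (hx (i + 1 + 1) (j + 1)).2.2.2.2.2.2
      have k4 : x (i + 1 + 1 + 1) (j + 1 + 1) = none := by
        by_contra hc
        exact (k3 (by rw [c1.1]; simp) hc).1 k2
      have k5 := hx.hok (i + 1 + 1) (j + 1 + 1)
      rw [c5.1, k4] at k5
      refine ⟨?_, ?_, ?_⟩
      · change t.r.1 = true
        rw [← c1.2.2.2.2.1]; exact k1.1
      · change t.r.2.1 = false
        rw [← c1.2.2.2.2.1]; exact k1.2.1
      · change (!hf) = true
        have := k5.2.1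
        rw [c5.2.2.2.1] at this
        change hf = false at this
        rw [this]; rfl
  · push Not at h1
    rw [hx.sub_none (φ := φ) (ψ := ψ) hi hj h1]
    by_cases h2 : ∃ t, Ev x (i + 1 + 1 + 1) (j + 1) t
    · obtain ⟨t', ht'⟩ := h2
      obtain ⟨hf', vf', rt', lt', ut', dt', ne', nw', se', sw', hs', d1, d2, d3, d4, d5, d6, d7,
        d8⟩ := hx.sub_center (φ := φ) (ψ := ψ) hi' hj ht'
      rw [hs']
      have k1 := hx.hok (i + 1) (j + 1)
      rw [d2.1] at k1
      have k2 : x (i + 1) (j + 1) = none := by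
        cases hh : x (i + 1) (j + 1) with
        | none => rfl
        | some u =>
          rw [hh] at k1
          exfalso
          refine h1 u ⟨hh, ?_, ?_⟩
          · have := k1.2.1
            rw [d2.2.1] at this
            simpa using this.symm
          · rw [← k1.2.2, d2.2.2.1]
      rw [k2] at k1
      have k3 := (hx (i + 1) (j + 1)).2.2.2.2.2.1
      have k4 : x (i + 1) (j + 1 + 1) = none := by
        by_contra hc
        exact (k3 (by rw [d2.1]; simp) hc).1 k2
      have k5 := hx.hok (i + 1) (j + 1 + 1)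
      rw [d6.1, k4] at k5
      refine ⟨?_, ?_, ?_⟩
      · change t'.l.1 = false
        rw [← d2.2.2.2.1]; exact k1.1
      · change t'.l.2.1 = false
        rw [← d2.2.2.2.1]; exact k1.2.1
      · change (!hf') = true
        have := k5.2.1
        rw [d6.2.2.2.2.1] at this
        change hf' = false at this
        rw [this]; rfl
    · push Not at h2
      rw [hx.sub_none (φ := φ) (ψ := ψ) hi' hj h2]
      trivial

theorem IsGood.sub_vok {φ ψ : B → A} (hψ : ∀ a, ψ (a + 1) = ψ a + 1 + 1) (a b : B) :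
    VOk (sub x φ ψ a b) (sub x φ ψ a (b + 1)) := by
  have h := (isGood_trc hx).sub_hok (φ := ψ) (ψ := φ) hψ b a
  rw [sub_trc, sub_trc] at h
  exact hok_tr.1 h

theorem IsGood.sub_valid {φ ψ : B → A} (a b : B) (s : Tile) (h : sub x φ ψ a b = some s) :
    Valid s := by
  obtain ⟨i, hi⟩ : ∃ i, φ a = i + 1 := ⟨φ a - 1, by simp⟩
  obtain ⟨j, hj⟩ : ∃ j, ψ b = j + 1 := ⟨ψ b - 1, by simp⟩
  obtain ⟨t, c, ht, -, -⟩ := ev_of_sub h
  rw [hi, hj] at ht
  obtain ⟨hf, vf, rt, lt, ut, dt, ne, nw, se, sw, hs, c1, c2, c3, c4, c5, c6, c7, c8⟩ :=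
    hx.sub_center (φ := φ) (ψ := ψ) hi hj ht
  rw [hs] at h
  have h' := (Option.some.inj h).symm
  subst h'
  have hv := (hx.valid ht.1).1
  have e1 := c1.2.2.2.2.2.2.2
  have e2 := c2.2.2.2.2.2.2.2
  have e3 := c3.2.2.2.2.2.2.2
  have e4 := c4.2.2.2.2.2.2.2
  refine ⟨hv, ?_, ?_, ?_⟩
  · intro h1 h2
    change (!hf) = true at h1
    change (!vf) = true at h2
    simp only [Bool.not_eq_true'] at h1 h2
    subst h1 h2
    rcases hv with hv | hv | hv
    · exact hv
    · obtain ⟨c', e', a1, a2, a3, a4⟩ := hv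
      have := e3 rfl
      rw [a2] at this
      simp at this
    · obtain ⟨c', e', a1, a2, a3, a4⟩ := hv
      have b1 := e3 rfl
      have b2 := e4 rfl
      rw [a1, b2] at b1
      simp at b1
  · intro h1 h2
    change (!hf) = true at h1
    change (!vf) = false at h2
    simp only [Bool.not_eq_true', Bool.not_eq_false'] at h1 h2
    subst h1 h2
    rcases hv with hv | hv | hv
    · obtain ⟨h', v', a1, a2, a3, a4⟩ := hv
      have b1 := e3 rfl
      rw [a3] at b1
      simp at b1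
    · exact hv
    · obtain ⟨c', e', a1, a2, a3, a4⟩ := hv
      have b1 := e3 rfl
      have b2 := e4 rfl
      rw [a1, b2] at b1
      simp at b1
  · intro h1 h2
    change (!hf) = false at h1
    change (!vf) = true at h2
    simp only [Bool.not_eq_true', Bool.not_eq_false'] at h1 h2
    subst h1 h2
    rcases hv with hv | hv | hv
    · obtain ⟨h', v', a1, a2, a3, a4⟩ := hv
      have b1 := e1 rfl
      rw [a1] at b1
      simp at b1
    · obtain ⟨c', e', a1, a2, a3, a4⟩ := hv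
      have b1 := e1 rfl
      have b2 := e2 rfl
      rw [a1, b2] at b1
      simp at b1
    · exact hv

theorem IsGood.sub_qok {φ ψ : B → A} (hφ : ∀ a, φ (a + 1) = φ a + 1 + 1)
    (hψ : ∀ a, ψ (a + 1) = ψ a + 1 + 1) (a b : B) :
    QOk (sub x φ ψ a b) (sub x φ ψ (a + 1) b) (sub x φ ψ a (b + 1)) (sub x φ ψ (a + 1) (b + 1)) := by
  obtain ⟨i, hi⟩ : ∃ i, φ a = i + 1 := ⟨φ a - 1, by simp⟩
  obtain ⟨j, hj⟩ : ∃ j, ψ b = j + 1 := ⟨ψ b - 1, by simp⟩
  have hi' : φ (a + 1) = i + 1 + 1 + 1 := by rw [hφ, hi]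
  have hj' : ψ (b + 1) = j + 1 + 1 + 1 := by rw [hψ, hj]
  constructor
  · intro h1 h2
    obtain ⟨s1, h1⟩ := Option.ne_none_iff_exists'.1 h1
    obtain ⟨s2, h2⟩ := Option.ne_none_iff_exists'.1 h2
    obtain ⟨t, -, ht, -⟩ := ev_of_sub h1
    obtain ⟨t', -, ht', -⟩ := ev_of_sub h2
    rw [hi', hj] at ht
    rw [hi, hj'] at ht'
    obtain ⟨hf, vf, rt, lt, ut, dt, ne, nw, se, sw, hs, c1, c2, c3, c4, c5, c6, c7, c8⟩ :=
      hx.sub_center (φ := φ) (ψ := ψ) hi' hj ht
    obtain ⟨hf', vf', rt', lt', ut', dt', ne', nw', se', sw', hs', d1, d2, d3, d4, d5, d6, d7,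
        d8⟩ := hx.sub_center (φ := φ) (ψ := ψ) hi hj' ht'
    constructor
    · have k1 := ((hx (i + 1) (j + 1)).2.2.2.2.2.1 (by rw [c2.1]; simp) (by rw [d4.1]; simp)).1
      obtain ⟨u, hu⟩ := Option.ne_none_iff_exists'.1 k1
      have k2 := hx.hok (i + 1) (j + 1)
      rw [hu, c2.1] at k2
      have hE : Ev x (i + 1) (j + 1) u := by
        refine ⟨hu, ?_, ?_⟩
        · have := k2.2.1
          rw [c2.2.1] at this
          simpa using this.symm
        · rw [← k2.2.2, c2.2.2.1]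
      obtain ⟨_, _, _, _, _, _, _, _, _, _, hs'', _⟩ := hx.sub_center (φ := φ) (ψ := ψ) hi hj hE
      rw [hs'']
      simp
    · have k1 := ((hx (i + 1 + 1) (j + 1 + 1)).2.2.2.2.2.1 (by rw [c3.1]; simp)
        (by rw [d1.1]; simp)).2
      obtain ⟨u, hu⟩ := Option.ne_none_iff_exists'.1 k1
      have k2 := hx.hok (i + 1 + 1) (j + 1 + 1 + 1)
      rw [hu, d1.1] at k2
      have hE : Ev x (i + 1 + 1 + 1) (j + 1 + 1 + 1) u := by
        refine ⟨hu, ?_, ?_⟩
        · rw [k2.2.1, d1.2.1]; rfl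
        · rw [k2.2.2, d1.2.2.1]
      obtain ⟨_, _, _, _, _, _, _, _, _, _, hs'', _⟩ := hx.sub_center (φ := φ) (ψ := ψ) hi' hj' hE
      rw [hs'']
      simp
  · intro h1 h2
    obtain ⟨s1, h1⟩ := Option.ne_none_iff_exists'.1 h1
    obtain ⟨s2, h2⟩ := Option.ne_none_iff_exists'.1 h2
    obtain ⟨t, -, ht, -⟩ := ev_of_sub h1
    obtain ⟨t', -, ht', -⟩ := ev_of_sub h2
    rw [hi, hj] at ht
    rw [hi', hj'] at ht'
    obtain ⟨hf, vf, rt, lt, ut, dt, ne, nw, se, sw, hs, c1, c2, c3, c4, c5, c6, c7, c8⟩ :=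
      hx.sub_center (φ := φ) (ψ := ψ) hi hj ht
    obtain ⟨hf', vf', rt', lt', ut', dt', ne', nw', se', sw', hs', d1, d2, d3, d4, d5, d6, d7,
        d8⟩ := hx.sub_center (φ := φ) (ψ := ψ) hi' hj' ht'
    constructor
    · have k1 := ((hx (i + 1 + 1) (j + 1)).2.2.2.2.2.2 (by rw [c1.1]; simp)
        (by rw [d4.1]; simp)).1
      obtain ⟨u, hu⟩ := Option.ne_none_iff_exists'.1 k1
      have k2 := hx.hok (i + 1 + 1) (j + 1)
      rw [hu, c1.1] at k2
      have hE : Ev x (i + 1 + 1 + 1) (j + 1) u := by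
        refine ⟨hu, ?_, ?_⟩
        · rw [k2.2.1, c1.2.1]; rfl
        · rw [k2.2.2, c1.2.2.1]
      obtain ⟨_, _, _, _, _, _, _, _, _, _, hs'', _⟩ := hx.sub_center (φ := φ) (ψ := ψ) hi' hj hE
      rw [hs'']
      simp
    · have k1 := ((hx (i + 1) (j + 1 + 1)).2.2.2.2.2.2 (by rw [c3.1]; simp)
        (by rw [d2.1]; simp)).2
      obtain ⟨u, hu⟩ := Option.ne_none_iff_exists'.1 k1
      have k2 := hx.vok (i + 1) (j + 1 + 1)
      rw [hu, c3.1] at k2
      have hE : Ev x (i + 1) (j + 1 + 1 + 1) u := by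
        refine ⟨hu, ?_, ?_⟩
        · rw [k2.2.2, c3.2.1]
        · rw [k2.2.1, c3.2.2.1]; rfl
      obtain ⟨_, _, _, _, _, _, _, _, _, _, hs'', _⟩ := hx.sub_center (φ := φ) (ψ := ψ) hi hj' hE
      rw [hs'']
      simp

/-- The subsampled configuration is good. -/
theorem IsGood.sub_good {φ ψ : B → A} (hφ : ∀ a, φ (a + 1) = φ a + 1 + 1)
    (hψ : ∀ a, ψ (a + 1) = ψ a + 1 + 1) : IsGood (sub x φ ψ) := by
  intro a b
  exact ⟨fun s hs => hx.sub_valid a b s hs, hx.sub_hok hφ a b, hx.sub_hok hφ a (b + 1),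
    hx.sub_vok hψ a b, hx.sub_vok hψ (a + 1) b, hx.sub_qok hφ hψ a b⟩

/-- A good configuration with a non-blank cell has an even-even cell. -/
theorem IsGood.exists_ev {i j : A} {t : Tile} (h : x i j = some t) : ∃ i' j' s, Ev x i' j' s := by
  -- first the odd-odd case
  have key : ∀ (i j : A) (t : Tile), x i j = some t → t.p = true → t.q = true →
      ∃ i' j' s, Ev x i' j' s := by
    intro i j t h hp hq
    obtain ⟨hf, vf, tr, tl, tu, td⟩ := (hx.valid h).2.1 hp hq
    obtain ⟨i0, rfl⟩ : ∃ i0, i = i0 + 1 := ⟨i - 1, by simp⟩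
    obtain ⟨j0, rfl⟩ : ∃ j0, j = j0 + 1 := ⟨j - 1, by simp⟩
    -- horizontal neighbour
    have k1 := hx.hok (i0 + 1) (j0 + 1)
    have k2 := hx.hok i0 (j0 + 1)
    have k3 := hx.vok (i0 + 1) (j0 + 1)
    have k4 := hx.vok (i0 + 1) j0
    rw [h] at k1 k2 k3 k4
    cases hf with
    | true =>
      have a1 : ∃ s, x (i0 + 1 + 1) (j0 + 1) = some s ∧ s.p = false ∧ s.q = true := by
        cases hh : x (i0 + 1 + 1) (j0 + 1) with
        | none =>
          rw [hh] at k1
          have := k1.2.1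
          rw [tr] at this
          simp at this
        | some s =>
          rw [hh] at k1
          exact ⟨s, rfl, by rw [k1.2.1, hp]; rfl, by rw [k1.2.2, hq]⟩
      obtain ⟨s, hs, sp, sq⟩ := a1
      cases vf with
      | true =>
        have a2 : x (i0 + 1) (j0 + 1 + 1) ≠ none := by
          intro hh
          rw [hh] at k3
          have := k3.2.1
          rw [tu] at this
          simp at this
        have a3 := ((hx (i0 + 1) (j0 + 1)).2.2.2.2.2.1 (by rw [hs]; simp) a2).2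
        obtain ⟨u, hu⟩ := Option.ne_none_iff_exists'.1 a3
        have a4 := hx.vok (i0 + 1 + 1) (j0 + 1)
        rw [hs, hu] at a4
        exact ⟨_, _, u, hu, by rw [a4.2.2, sp], by rw [a4.2.1, sq]; rfl⟩
      | false =>
        have a2 : x (i0 + 1) j0 ≠ none := by
          intro hh
          rw [hh] at k4
          have := k4.2.1
          rw [td] at this
          simp at this
        have a3 := ((hx (i0 + 1) j0).2.2.2.2.2.2 a2 (by rw [hs]; simp)).1
        obtain ⟨u, hu⟩ := Option.ne_none_iff_exists'.1 a3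
        have a4 := hx.vok (i0 + 1 + 1) j0
        rw [hs, hu] at a4
        refine ⟨_, _, u, hu, by rw [← a4.2.2, sp], ?_⟩
        have := a4.2.1
        rw [sq] at this
        simpa using this.symm
    | false =>
      have a1 : ∃ s, x i0 (j0 + 1) = some s ∧ s.p = false ∧ s.q = true := by
        cases hh : x i0 (j0 + 1) with
        | none =>
          rw [hh] at k2
          have := k2.2.1
          rw [tl] at this
          simp at this
        | some s =>
          rw [hh] at k2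
          refine ⟨s, rfl, ?_, by rw [← k2.2.2, hq]⟩
          have := k2.2.1
          rw [hp] at this
          simpa using this.symm
      obtain ⟨s, hs, sp, sq⟩ := a1
      cases vf with
      | true =>
        have a2 : x (i0 + 1) (j0 + 1 + 1) ≠ none := by
          intro hh
          rw [hh] at k3
          have := k3.2.1
          rw [tu] at this
          simp at this
        have a3 := ((hx i0 (j0 + 1)).2.2.2.2.2.2 (by rw [hs]; simp) a2).2
        obtain ⟨u, hu⟩ := Option.ne_none_iff_exists'.1 a3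
        have a4 := hx.vok i0 (j0 + 1)
        rw [hs, hu] at a4
        exact ⟨_, _, u, hu, by rw [a4.2.2, sp], by rw [a4.2.1, sq]; rfl⟩
      | false =>
        have a2 : x (i0 + 1) j0 ≠ none := by
          intro hh
          rw [hh] at k4
          have := k4.2.1
          rw [td] at this
          simp at this
        have a3 := ((hx i0 j0).2.2.2.2.2.1 a2 (by rw [hs]; simp)).1
        obtain ⟨u, hu⟩ := Option.ne_none_iff_exists'.1 a3
        have a4 := hx.vok i0 j0
        rw [hs, hu] at a4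
        refine ⟨_, _, u, hu, by rw [← a4.2.2, sp], ?_⟩
        have := a4.2.1
        rw [sq] at this
        simpa using this.symm
  cases hp : t.p with
  | true =>
    cases hq : t.q with
    | true => exact key i j t h hp hq
    | false =>
      obtain ⟨s, hs, -, sq, sp⟩ := hx.up h hq
      exact key _ _ s hs (by rw [sp, hp]) sq
  | false =>
    cases hq : t.q with
    | true =>
      obtain ⟨s, hs, -, sp, sq⟩ := hx.right h hp
      exact key _ _ s hs sp (by rw [sq, hq])
    | false => exact ⟨i, j, t, h, hp, hq⟩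

end

end Pool.Agent.Tile31
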