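import Pool.Agent.Tile31.Descent
import Pool.Agent.Tile31.Pattern

/-!
# Energies of configurations on a torus
-/

set_option autoImplicit false

open scoped Classical in
/-- The number of bad windows. -/
noncomputable def Pool.Agent.Tile31.energy {L : ℕ} [NeZero L]
    (x : ZMod L → ZMod L → Option Pool.Agent.Tile31.Tile) : ℕ :=
  (Finset.univ.filter fun z : ZMod L × ZMod L =>
    ¬ Pool.Agent.Tile31.Good (x z.1 z.2) (x (z.1 + 1) z.2) (x z.1 (z.2 + 1))
      (x (z.1 + 1) (z.2 + 1))).card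

namespace Pool.Agent.Tile31

open Finset

theorem good_none : Good none none none none :=
  ⟨by simp, trivial, trivial, trivial, trivial, by simp [QOk]⟩

theorem energy_eq_zero {L : ℕ} [NeZero L] {x : ZMod L → ZMod L → Option Tile} :
    energy x = 0 ↔ x = fun _ _ => none := by
  classical
  unfold energy
  rw [Finset.card_eq_zero, Finset.filter_eq_empty_iff]
  constructor
  · intro h
    funext i j
    refine good_blank (x := x) (fun a b => ?_) i j
    have := h (Finset.mem_univ (a, b))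
    rwa [not_not] at this
  · rintro rfl z -
    rw [not_not]
    exact good_none

/-- the pattern with free bits, on the torus -/
def pat (L n : ℕ) [NeZero L] (bt : ℕ → ℕ → Bool) (i j : ZMod L) : Option Tile :=
  F (2 ^ n) bt i.val j.val

theorem F_zero_left (N : ℕ) (bt : ℕ → ℕ → Bool) (j : ℕ) : F N bt 0 j = none := by
  unfold F In
  simp

theorem F_zero_right (N : ℕ) (bt : ℕ → ℕ → Bool) (i : ℕ) : F N bt i 0 = none := by
  unfold F In
  simp

theorem F_big_left {N L : ℕ} (h : N ≤ L) (bt : ℕ → ℕ → Bool) (j : ℕ) : F N bt L j = none := by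
  unfold F In
  rw [if_neg]
  omega

theorem F_big_right {N L : ℕ} (h : N ≤ L) (bt : ℕ → ℕ → Bool) (i : ℕ) : F N bt i L = none := by
  unfold F In
  rw [if_neg]
  omega

theorem val_succ {L : ℕ} [NeZero L] (i : ZMod L) :
    (i + 1).val = i.val + 1 ∨ ((i + 1).val = 0 ∧ i.val + 1 = L) := by
  have h1 : (i + 1).val = (i.val + 1) % L := by
    rw [ZMod.val_add, ZMod.val_one_eq_one_mod, Nat.add_mod_mod]
  have h2 := ZMod.val_lt i
  rcases Nat.lt_or_ge (i.val + 1) L with h | h
  · left
    rw [h1, Nat.mod_eq_of_lt h]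
  · right
    have : i.val + 1 = L := by omega
    rw [h1, this]
    exact ⟨Nat.mod_self L, rfl⟩

theorem F_succ_left {N L : ℕ} [NeZero L] (h : N ≤ L) (bt : ℕ → ℕ → Bool) (i : ZMod L) (j : ℕ) :
    F N bt (i + 1).val j = F N bt (i.val + 1) j := by
  rcases val_succ i with h1 | ⟨h1, h2⟩
  · rw [h1]
  · rw [h1, h2, F_zero_left, F_big_left h]

theorem F_succ_right {N L : ℕ} [NeZero L] (h : N ≤ L) (bt : ℕ → ℕ → Bool) (i : ℕ) (j : ZMod L) :
    F N bt i (j + 1).val = F N bt i (j.val + 1) := by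
  rcases val_succ j with h1 | ⟨h1, h2⟩
  · rw [h1]
  · rw [h1, h2, F_zero_right, F_big_right h]

theorem energy_pat {L n : ℕ} [NeZero L] (hn : 1 ≤ n) (hL : 2 ^ n ≤ L) (bt : ℕ → ℕ → Bool) :
    energy (pat L n bt) ≤ 4 := by
  classical
  unfold energy
  let S : Finset (ℕ × ℕ) := {(2 ^ n - 1, 2 ^ (n - 1)), (2 ^ n - 1, 2 ^ (n - 1) - 1),
      (2 ^ (n - 1), 2 ^ n - 1), (2 ^ (n - 1) - 1, 2 ^ n - 1)}
  have hS : S.card ≤ 4 := Finset.card_le_four
  refine le_trans ?_ hS
  refine Finset.card_le_card_of_injOn (fun z => (z.1.val, z.2.val)) ?_ ?_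
  · intro z hz
    rw [Finset.coe_filter] at hz
    by_contra hc
    apply hz.2
    unfold pat
    simp only [F_succ_left hL, F_succ_right hL]
    exact F_good hn hc
  · intro z _ z' _ h
    simp only [Prod.mk.injEq] at h
    exact Prod.ext (ZMod.val_injective L h.1) (ZMod.val_injective L h.2)

/-- There are many configurations of energy at most four. -/
theorem card_le_four {L n : ℕ} [NeZero L] (hn : 1 ≤ n) (hL : 2 ^ n ≤ L) :
    ∃ f : (Fin (2 ^ n - 1) → Fin (2 ^ n - 1) → Bool) → (ZMod L → ZMod L → Option Tile),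
      Function.Injective f ∧ ∀ b, energy (f b) ≤ 4 := by
  refine ⟨fun b => pat L n (fun i j => if h : In (2 ^ n) i ∧ In (2 ^ n) j then
    b ⟨i - 1, by unfold In at h; omega⟩ ⟨j - 1, by unfold In at h; omega⟩ else false), ?_,
    fun b => energy_pat hn hL _⟩
  intro b b' hbb
  funext i j
  have hi := i.2
  have hj := j.2
  have h1 : ((i.val + 1 : ℕ) : ZMod L).val = i.val + 1 := ZMod.val_natCast_of_lt (by omega)
  have h2 : ((j.val + 1 : ℕ) : ZMod L).val = j.val + 1 := ZMod.val_natCast_of_lt (by omega)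
  have h := congrFun (congrFun hbb ((i.val + 1 : ℕ) : ZMod L)) ((j.val + 1 : ℕ) : ZMod L)
  simp only [pat, h1, h2, F] at h
  have hIn : In (2 ^ n) (i.val + 1) ∧ In (2 ^ n) (j.val + 1) := by
    unfold In; omega
  rw [if_pos hIn, if_pos hIn] at h
  have h3 := congrArg Tile.bit (Option.some.inj h)
  simp only [P, dif_pos hIn] at h3
  simpa using h3

end Pool.Agent.Tile31
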